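import Pool.Agent.Run7.h570.BBN.Lef

set_option autoImplicit false
set_option linter.unusedSectionVars false

/-!
# Triangular form of the self-correspondences
-/

open CategoryTheory AlgebraicGeometry

universe u v w

namespace Pool.Agent.Run7.h570.BBN

open Pool.Agent.H914 Pool.Agent.H914.VarClass Pool.Agent.H914.VarClass.Obj Pool.Agent.W492.BB
  Pool.Agent.W550.Corr Pool.Agent.TH133

variable {k : Type u} [Field k] {𝒱 : VarClass k} {C : TheoryData.{u, v, 0} 𝒱 ℚ}
  [hC : IsChowProj C] {K : Type w} [Field K]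
  {H : WeilTheoryData.{u, v, w} C K} [hH : IsWeilProj H] {X Y Z W P : 𝒱.Obj}

variable (H) in
/-- Self-correspondences of degree zero are triangular with respect to `π`, with diagonal determined by
the cohomology. -/
structure Tri {X : 𝒱.Obj} (π : ℕ → C.A (X.prod X)) : Prop where
  up : ∀ (a b : ℕ) (γ : C.A (X.prod X)), γ ∈ C.gr (X.prod X) X.dim → a < b →
    C.comp (C.comp (π a) γ) (π b) = 0
  diag : ∀ (a : ℕ) (γ : C.A (X.prod X)), γ ∈ C.gr (X.prod X) X.dim → Kills H γ a →
    C.comp (C.comp (π a) γ) (π a) = 0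

variable (H) in
/-- The conditions (B) and (D) for `π`. -/
structure BD {X : 𝒱.Obj} (π : ℕ → C.A (X.prod X)) : Prop where
  low : ∀ (i m : ℕ) (x : C.A X), x ∈ C.gr X i → m < i → C.act (π m) x = 0
  high : ∀ (i m : ℕ) (x : C.A X), x ∈ C.gr X i → 2 * i < m → C.act (π m) x = 0
  two : ∀ (i : ℕ) (x : C.A X), x ∈ C.gr X i → H.cl x = 0 → C.act (π (2 * i)) x = 0

include hC hH

/-- Triangularity implies the vanishing of powers of phantoms. -/
lemma Tri.powZero {π : ℕ → C.A (P.prod P)} (hπ : IsCK H P π) (hT : Tri H π) (hB : BD H π) :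
    PowZero H P := by
  intro i ε hε x hx hcl
  have hmem : ∀ n, (C.act ε)^[n] x ∈ C.gr P i := by
    intro n
    induction n with
    | zero => exact hx
    | succ n ih =>
      rw [Function.iterate_succ_apply']
      exact act_mem0 C hε.1 ih
  have hsum : ∀ y : C.A P, y = ∑ j ∈ Finset.range (2 * P.dim + 1), C.act (π j) y := by
    intro y
    rw [← act_sum, hπ.sum, act_dg]
  have key : ∀ n, n ≤ i → ∀ b, 2 * i - n ≤ b → C.act (π b) ((C.act ε)^[n] x) = 0 := by
    intro n
    induction n with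
    | zero =>
      intro _ b hb
      rcases Nat.lt_or_ge (2 * i) b with h1 | h1
      · exact hB.high i b x hx h1
      · obtain rfl : b = 2 * i := by omega
        exact hB.two i x hx hcl
    | succ n ih =>
      intro hn b hb
      rw [Function.iterate_succ_apply', hsum ((C.act ε)^[n] x), act_map_sum, act_map_sum]
      apply Finset.sum_eq_zero
      intro a _
      by_cases ha : 2 * i - n ≤ a
      · rw [ih (by omega) a ha, TheoryData.act_map_zero, TheoryData.act_map_zero]
      · rw [← C.act_comp, ← C.act_comp, ← comp_assoc]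
        by_cases hab : a < b
        · rw [hT.up a b ε hε.1 hab, TheoryData.act_zero]
        · obtain rfl : b = a := by omega
          rw [hT.diag b ε hε.1 (hε.2 b (by omega) (by omega)), TheoryData.act_zero]
  rw [hsum ((C.act ε)^[i] x)]
  apply Finset.sum_eq_zero
  intro b _
  by_cases hb : b < i
  · exact hB.low i b _ (hmem i) hb
  · exact key i le_rfl b (by omega)

lemma comp_sum_pi {π : ℕ → C.A (X.prod X)} (hπ : IsCK H X π) (γ : C.A (X.prod X)) :
    γ = ∑ j ∈ Finset.range (2 * X.dim + 1), C.comp γ (π j) := by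
  rw [← comp_sum, hπ.sum, comp_dg]

/-- Triangularity implies the vanishing of the product of the ideals. -/
lemma Tri.prodZero {π : ℕ → C.A (P.prod P)} (hπ : IsCK H P π) (hT : Tri H π) :
    ProdZero H P := by
  intro γ hγ
  have key : ∀ n, n ≤ 2 * P.dim + 1 → ∀ b, 2 * P.dim + 1 - n ≤ b →
      C.comp (prodDown γ (2 * P.dim) n) (π b) = 0 := by
    intro n
    induction n with
    | zero =>
      intro _ b hb
      rw [hπ.out b (by omega), comp_zero]
    | succ n ih =>
      intro hn b hb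
      change C.comp (C.comp (prodDown γ (2 * P.dim) n) (γ (2 * P.dim - n))) (π b) = 0
      rw [comp_assoc, comp_sum_pi hπ (prodDown γ (2 * P.dim) n), sum_comp]
      apply Finset.sum_eq_zero
      intro a _
      by_cases ha : 2 * P.dim + 1 - n ≤ a
      · rw [ih (by omega) a ha, zero_comp]
      · rw [comp_assoc, ← comp_assoc C (π a)]
        by_cases hab : a < b
        · rw [hT.up a b _ (hγ _ (by omega)).1 hab, comp_zero]
        · obtain rfl : b = a := by omega
          have e1 : 2 * P.dim - n = b := by omega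
          rw [e1, hT.diag b _ (hγ b (by omega)).1 (hγ b (by omega)).2, comp_zero]
  rw [comp_sum_pi hπ (prodDown γ (2 * P.dim) (2 * P.dim + 1))]
  apply Finset.sum_eq_zero
  intro b _
  exact key _ le_rfl b (by omega)

lemma ProdZero.nil (h : ProdZero H X) : Nil H X := by
  intro γ hγ hcl
  refine ⟨2 * X.dim + 1, ?_⟩
  have hk : ∀ m, Kills H γ m := by
    intro m a _
    rw [hcl]
    exact H.act_zero a
  have h1 := h (fun _ => γ) (fun m _ => ⟨hγ, hk m⟩)
  have h2 : ∀ (g : Cor C X) (n : ℕ), prodDown (fun _ => (g : C.A (X.prod X))) (2 * X.dim) n =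
      (g ^ n : Cor C X) := by
    intro g n
    induction n with
    | zero =>
      rw [pow_zero]
      rfl
    | succ n ih =>
      change C.comp (prodDown (fun _ => (g : C.A (X.prod X))) (2 * X.dim) n) g = _
      rw [ih]
      exact (pow_succ' g n).symm
  exact (comp_iter (C := C) (X := X) γ (2 * X.dim + 1)).trans ((h2 γ _).symm.trans h1)

/-- The elements `z = q z p` of the ideal `I_a`, where `p` is in all `I_j`, `j > a`, and `q` in all
`I_j`, `j < a`, are zero. -/
lemma ProdZero.zero_of (h : ProdZero H X) {a : ℕ} (ha : a ≤ 2 * X.dim)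
    {p z q : C.A (X.prod X)} (hp : C.Deg X.dim p) (hz : C.Deg X.dim z) (hq : C.Deg X.dim q)
    (hpk : ∀ j : ℕ, a < j → Kills H p j) (hzk : Kills H z a)
    (hqk : ∀ j : ℕ, j < a → Kills H q j) (hpz : C.comp p z = z) (hzq : C.comp z q = z) :
    z = 0 := by
  let γ : ℕ → C.A (X.prod X) := fun j => if a < j then p else if j < a then q else z
  have hγ1 : ∀ j, a < j → γ j = p := fun j hj => if_pos hj
  have hγ2 : ∀ j, j < a → γ j = q := fun j hj => by
    simp only [γ]
    rw [if_neg (by omega), if_pos hj]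
  have hγ3 : γ a = z := by
    simp only [γ]
    rw [if_neg (by omega), if_neg (by omega)]
  have h1 := h γ (fun m _ => by
    rcases lt_trichotomy a m with h1 | h1 | h1
    · rw [hγ1 m h1]
      exact ⟨hp, hpk m h1⟩
    · subst h1
      rw [hγ3]
      exact ⟨hz, hzk⟩
    · rw [hγ2 m h1]
      exact ⟨hq, hqk m h1⟩)
  have h2 : ∀ n, n ≤ 2 * X.dim - a → C.comp (prodDown γ (2 * X.dim) n) z = z := by
    intro n
    induction n with
    | zero => exact fun _ => dg_comp C z
    | succ n ih =>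
      intro hn
      change C.comp (C.comp (prodDown γ (2 * X.dim) n) (γ (2 * X.dim - n))) z = z
      rw [hγ1 _ (by omega), comp_assoc, hpz, ih (by omega)]
  have h3 : ∀ n, n ≤ a → prodDown γ (2 * X.dim) (2 * X.dim - a + 1 + n) = z := by
    intro n
    induction n with
    | zero =>
      intro _
      change C.comp (prodDown γ (2 * X.dim) (2 * X.dim - a))
        (γ (2 * X.dim - (2 * X.dim - a))) = z
      have e1 : 2 * X.dim - (2 * X.dim - a) = a := by omega
      rw [e1, hγ3, h2 _ le_rfl]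
    | succ n ih =>
      intro hn
      change C.comp (prodDown γ (2 * X.dim) (2 * X.dim - a + 1 + n))
        (γ (2 * X.dim - (2 * X.dim - a + 1 + n))) = z
      rw [ih (by omega), hγ2 _ (by omega), hzq]
  have h4 := h3 a le_rfl
  have e1 : 2 * X.dim - a + 1 + a = 2 * X.dim + 1 := by omega
  rw [e1] at h4
  rw [← h4, h1]

lemma pi_kills {π : ℕ → C.A (X.prod X)} (hπ : IsCK H X π) {a j : ℕ} (h : j ≠ a) :
    Kills H (π a) j := fun x hx => hπ.act_ne a j x (by omega) hx

/-- The action of `π_b γ π_a` on the cohomology. -/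
lemma actH_pi_pi {π : ℕ → C.A (X.prod X)} (hπ : IsCK H X π) (a b : ℕ) {γ : C.A (X.prod X)}
    (hγ : γ ∈ C.gr (X.prod X) X.dim) (h : a ≠ b ∨ Kills H γ a) (x : H.A X) :
    H.act (H.cl (C.comp (C.comp (π a) γ) (π b))) x = 0 := by
  have h0 : ∀ (c : H.A (X.prod X)), H.act c 0 = 0 := fun c => map_zero (H.actL c)
  have h1 : H.actL (H.cl (C.comp (C.comp (π a) γ) (π b))) = 0 := by
    apply ext_gr H
    intro m x hx
    rw [TheoryData.actL_apply, actH_comp, actH_comp, hπ.actH_eq a m hx, LinearMap.zero_apply]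
    split_ifs with h2
    · subst h2
      rcases h with h | h
      · have h3 : H.act (H.cl γ) x ∈ H.gr X (a : ℤ) := by
          have h4 : γ ∈ C.gr (X.prod X) (X.dim + 0) := by rw [add_zero]; exact hγ
          have h5 := actH_mem H h4 hx
          rwa [mul_zero, add_zero] at h5
        exact hπ.act_ne b a _ (by omega) h3
      · have h3 : H.act (H.cl γ) x = 0 := h x hx
        rw [h3, h0]
    · rw [h0, h0]
  exact LinearMap.congr_fun h1 x

lemma ProdZero.tri (h : ProdZero H X) {π : ℕ → C.A (X.prod X)} (hπ : IsCK H X π) : Tri H π := by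
  have key : ∀ (a b : ℕ) (γ : C.A (X.prod X)), γ ∈ C.gr (X.prod X) X.dim → a ≤ b →
      (a ≠ b ∨ Kills H γ a) → C.comp (C.comp (π a) γ) (π b) = 0 := by
    intro a b γ hγ hab hk
    by_cases ha : a ≤ 2 * X.dim
    · refine h.zero_of ha (hπ.deg a) (comp_mem0 C (comp_mem0 C (hπ.deg a) hγ) (hπ.deg b))
        (hπ.deg b) (fun j hj => pi_kills hπ (by omega)) (fun x _ => actH_pi_pi hπ a b hγ hk x)
        (fun j hj => pi_kills hπ (by omega)) ?_ ?_
      · rw [← comp_assoc, ← comp_assoc, hπ.idem]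
      · rw [comp_assoc, hπ.idem]
    · rw [hπ.out a (by omega), zero_comp, zero_comp]
  exact ⟨fun a b γ hγ hab => key a b γ hγ hab.le (Or.inl hab.ne),
    fun a γ hγ hk => key a a γ hγ le_rfl (Or.inr hk)⟩

/-- The class `w = π_(2i) u` and the correspondence `v × x` which maps it to `x`. -/
lemma exists_E {π : ℕ → C.A (X.prod X)} (hπ : IsCK H X π) {i : ℕ} (hi : i ≤ X.dim) {x : C.A X}
    (hx : x ∈ C.gr X i) : ∃ (E : C.A (X.prod X)) (w : C.A X), C.Deg X.dim E ∧
      C.act (π (2 * i)) w = w ∧ C.act E w = x ∧ (H.cl x = 0 → H.cl E = 0) := by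
  obtain ⟨u, hu, v, hv, huv⟩ := exists_dual_pair (C := C) (H := H) X hi
  have hE : C.ext v x ∈ C.gr (X.prod X) X.dim := by
    have := ext_mem (H := H) hv hx
    rwa [sub_add_cancel] at this
  have hwm : C.act (π (2 * i)) u ∈ C.gr X i := act_mem0 C (hπ.deg _) hu
  refine ⟨C.ext v x, C.act (π (2 * i)) u, hE, ?_, ?_, ?_⟩
  · rw [← C.act_comp, hπ.idem]
  · rw [act_ext (H := H)]
    have h2 : C.push (snd X X) (C.pull (fst X X) (v * C.act (π (2 * i)) u)) = 1 := by
      rw [← huv]
      apply deg_eq_of_cl (H := H)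
      · have := C.mul_mem hv hwm
        rwa [sub_add_cancel] at this
      · have := C.mul_mem hv hu
        rwa [sub_add_cancel] at this
      · rw [map_mul, map_mul, cl_act H]
        congr 1
        have h3 := H.cl_mem hu
        exact hπ.act_self (2 * i) _ (by exact_mod_cast h3)
    rw [h2, one_mul]
  · intro hcl
    rw [TheoryData.ext, map_mul, H.cl_pull, H.cl_pull, hcl, map_zero, mul_zero]

lemma Tri.high {π : ℕ → C.A (X.prod X)} (hπ : IsCK H X π) (hT : Tri H π) {i m : ℕ} {x : C.A X}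
    (hx : x ∈ C.gr X i) (hm : 2 * i < m) : C.act (π m) x = 0 := by
  by_cases hi : i ≤ X.dim
  · obtain ⟨E, w, hE, hw, hEw, -⟩ := exists_E hπ hi hx
    have h1 := hT.up (2 * i) m E hE hm
    have h2 : C.act (C.comp (C.comp (π (2 * i)) E) (π m)) w = C.act (π m) x := by
      rw [C.act_comp, C.act_comp, hw, hEw]
    rw [← h2, h1, TheoryData.act_zero]
  · have h1 : x = 0 := hC.gr_top X i x hx (by omega)
    rw [h1, TheoryData.act_map_zero]

lemma Tri.two {π : ℕ → C.A (X.prod X)} (hπ : IsCK H X π) (hT : Tri H π) {i : ℕ} {x : C.A X}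
    (hx : x ∈ C.gr X i) (hcl : H.cl x = 0) : C.act (π (2 * i)) x = 0 := by
  by_cases hi : i ≤ X.dim
  · obtain ⟨E, w, hE, hw, hEw, hEcl⟩ := exists_E hπ hi hx
    have h1 := hT.diag (2 * i) E hE (fun a _ => by
      rw [hEcl hcl]
      exact H.act_zero a)
    have h2 : C.act (C.comp (C.comp (π (2 * i)) E) (π (2 * i))) w = C.act (π (2 * i)) x := by
      rw [C.act_comp, C.act_comp, hw, hEw]
    rw [← h2, h1, TheoryData.act_zero]
  · have h1 : x = 0 := hC.gr_top X i x hx (by omega)
    rw [h1, TheoryData.act_map_zero]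

/-- The vanishing of the product of the ideals implies the vanishing of powers of phantoms. -/
lemma ProdZero.powZero (hK : KunnethConjecture H) (hB : LefschetzB H P) (h : ProdZero H P) :
    PowZero H P := by
  obtain ⟨π, hπ⟩ := exists_CK hK h.nil
  have hT := h.tri hπ
  exact hT.powZero hπ ⟨fun i m x hx hm => act_pi_zero_of_lef hB h.nil hπ hm hx,
    fun i m x hx hm => hT.high hπ hx hm, fun i x hx hcl => hT.two hπ hx hcl⟩

/-- The projectors `π m`, `m > 2 i`, act as zero on `CH^i`, and `π (2 i)` acts as zero on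
the homologically trivial classes. -/
lemma act_pi_zero_below (hX : IdemZeroBelow H X) {π : ℕ → C.A (X.prod X)} (hπ : IsCK H X π)
    {i m : ℕ} (hm : 2 * i ≤ m) {x : C.A X} (hx : x ∈ C.gr X i) (hcl : m = 2 * i → H.cl x = 0) :
    C.act (π m) x = 0 := by
  have h1 : KillsBelow H i (π m) := by
    refine ⟨hπ.deg m, fun m' h2 a ha => hπ.act_ne m m' a (by omega) ha⟩
  have h2 : H.cl (C.act (π m) x) = 0 := by
    rw [cl_act H]
    by_cases h3 : m = 2 * i
    · rw [hcl h3]
      exact map_zero (H.actL (H.cl (π m)))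
    · exact hπ.act_ne m (2 * i) _ (by omega) (H.cl_mem hx)
  have h3 := hX i (π m) (hπ.idem m) h1 (C.act (π m) x) (act_mem0 C (hπ.deg m) hx) h2
  rw [← C.act_comp, hπ.idem] at h3
  exact h3

lemma tri_of_below (hX : IdemZeroBelow H (X.prod X)) {π : ℕ → C.A (X.prod X)}
    (hπ : IsCK H X π) : Tri H π := by
  have hB0 : MurreB0 H (X.prod X) := by
    rw [murreB0_iff]
    intro π hπ i j x hx hj
    exact act_pi_zero_below hX hπ (by omega) hx (by omega)
  refine ⟨fun a b γ hγ hab => comp_zero_of_B0 hB0 hπ hπ (i := X.dim) hγ (by omega), ?_⟩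
  intro a γ hγ hk
  by_cases ha : a ≤ 2 * X.dim
  · have h1 : H.cl (C.comp (C.comp (π a) γ) (π a)) = 0 :=
      hom_zero_of_act H (actH_pi_pi hπ a a hγ (Or.inr hk))
    have h2 : C.comp (C.comp (π a) γ) (π a) ∈ C.gr (X.prod X) X.dim :=
      comp_mem0 C (comp_mem0 C (hπ.deg a) hγ) (hπ.deg a)
    have h3 : C.act (prodCK C (dualCK C π) π (2 * X.dim - a + a))
        (C.comp (C.comp (π a) γ) (π a)) = 0 := by
      apply act_pi_zero_below hX (hπ.dual.prod hπ) (i := X.dim) (by omega) h2
      intro _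
      exact h1
    have h4 := comp_zero_of_prod hπ hπ ha h3
    rw [comp_assoc, comp_assoc, comp_assoc, hπ.idem, ← comp_assoc, ← comp_assoc, hπ.idem] at h4
    exact h4
  · rw [hπ.out a (by omega), zero_comp, zero_comp]

lemma KillsBelow.phantom {i : ℕ} {ε : C.A (X.prod X)} (h : KillsBelow H i ε) :
    IsPhantom H i ε := ⟨h.1, fun m _ hm => h.2 m hm⟩

lemma IdemZero.below (h : IdemZero H X) : IdemZeroBelow H X :=
  fun i ε hid hε x hx hcl => h i ε hid hε.phantom x hx hcl

lemma LocNil.below (h : LocNil H X) : LocNilBelow H X :=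
  fun i ε hε x hx hcl => h i ε hε.phantom x hx hcl

/-- Transfer to dominated varieties. -/
lemma LocNilBelow.dom (hP : LocNilBelow H P) (h : Dominates C P X) : LocNilBelow H X := by
  obtain ⟨f, c, hc, h1⟩ := h
  have h1' : C.push f c = 1 := h1
  intro i ε hε x hx hcl
  obtain ⟨Γ, hΓ, hact, hk, -⟩ := exists_lift (H := H) f hc hε.1
  obtain ⟨n, hn⟩ := hP i Γ ⟨hΓ, fun m h2 => hk m (hε.2 m h2)⟩ (C.pull f x)
    (C.pull_mem f hx) (by rw [H.cl_pull, hcl, map_zero])
  refine ⟨n, ?_⟩
  have h2 : ∀ n, (C.act Γ)^[n] (C.pull f x) = C.pull f ((C.act ε)^[n] x) := by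
    intro n
    induction n with
    | zero => rfl
    | succ n ih =>
      rw [Function.iterate_succ_apply', ih, hact, push_pull_dom h1', Function.iterate_succ_apply']
  rw [h2] at hn
  rw [← push_pull_dom h1' ((C.act ε)^[n] x), hn, mul_zero, map_zero]

/-- Transfer to dominated varieties. -/
lemma IdemZeroBelow.dom (hP : IdemZeroBelow H P) (h : Dominates C P X) : IdemZeroBelow H X := by
  obtain ⟨f, c, hc, h1⟩ := h
  have h1' : C.push f c = 1 := h1
  intro i ε hid hε x hx hcl
  obtain ⟨Γ, hΓ, hact, hk, hΓe⟩ := exists_lift (H := H) f hc hε.1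
  have h2 := hP i Γ (by rw [hΓe, lift_comp (C := C) h1', hid])
    ⟨hΓ, fun m h2 => hk m (hε.2 m h2)⟩ (C.pull f x)
    (C.pull_mem f hx) (by rw [H.cl_pull, hcl, map_zero])
  rw [hact, push_pull_dom h1'] at h2
  rw [← push_pull_dom h1' (C.act ε x), h2, mul_zero, map_zero]

/-- Local nilpotence implies the vanishing of projectors. -/
lemma LocNilBelow.idem (h : LocNilBelow H X) : IdemZeroBelow H X := by
  intro i ε hid hε x hx hcl
  obtain ⟨n, hn⟩ := h i ε hε x hx hcl
  rw [← iter_idem (H := H) hid n x, ← Function.iterate_succ_apply, Function.iterate_succ_apply', hn]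
  exact TheoryData.act_map_zero C ε

/-- Local nilpotence on `X × X` implies that homologically trivial self-correspondences of `X` are
nilpotent. -/
lemma LocNilBelow.nil (h : LocNilBelow H (X.prod X)) : Nil H X := by
  rw [nil_iff]
  intro γ hγ hcl
  have hd : tens C (dg C X) γ ∈ C.gr ((X.prod X).prod (X.prod X)) ((X.prod X).dim : ℤ) := by
    have := tens_mem C (dg_mem C X) hγ
    rw [dim_prod]
    push_cast
    exact this
  have hz : H.cl (tens C (dg C X) γ) = 0 := by
    rw [cl_tens, hcl, tens, map_zero, mul_zero]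
  have hk : ∀ m, Kills H (tens C (dg C X) γ) m := by
    intro m a _
    rw [hz]
    exact H.act_zero a
  obtain ⟨n, hn⟩ := h X.dim (tens C (dg C X) γ) ⟨hd, fun m _ => hk m⟩ γ hγ hcl
  refine ⟨n + 1, ?_⟩
  have h1 : ∀ n, (C.act (tens C (dg C X) γ))^[n] γ = (γ ^ (n + 1) : Cor C X) := by
    intro n
    induction n with
    | zero => rw [zero_add, pow_one]; rfl
    | succ n ih =>
      rw [Function.iterate_succ_apply', ih, act_tens C (ch_comm C), tp_dg]
      have h2 : C.comp (X := X) (Y := X) (Z := X) (dg C X) (γ ^ (n + 1) : Cor C X) =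
          (γ ^ (n + 1) : Cor C X) := dg_comp C (X := X) (Y := X) (γ ^ (n + 1) : Cor C X)
      rw [h2]
      exact (pow_succ' γ (n + 1)).symm
  exact (h1 n).symm.trans hn

/-- **The criteria under the Lefschetz standard conjecture.** -/
theorem criterionB (hK : KunnethConjecture H) (S : Set 𝒱.Obj)
    (hS : ∀ X : 𝒱.Obj, ∃ P ∈ S, Dominates C P X) (hB : ∀ P ∈ S, LefschetzB H P) (S' : Set 𝒱.Obj)
    (hS' : ∀ X : 𝒱.Obj, ∃ P ∈ S', ∃ n : ℕ, P.dim = 2 * n ∧ X.dim ≤ n ∧ PolDominates C P X) :
    [∃ F : Filtration C, IsBB H F,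
      ∀ P ∈ S, ∃ G, IsLocalSep H P G,
      ∀ P ∈ S, ProdZero H P,
      ∀ P ∈ S, LocNilBelow H P,
      ∀ P ∈ S', LocNilMid H P,
      ∀ P ∈ S, Nil H P ∧ IdemZeroBelow H P].TFAE := by
  have hcrit := (criterion hK S hS).1
  have huniv := (criterion hK (Set.univ : Set 𝒱.Obj) (fun X => by
    obtain ⟨P, _, hP⟩ := hS X
    exact ⟨P, trivial, hP⟩)).1
  have e1 : (∃ F : Filtration C, IsBB H F) ↔ ∀ P ∈ S, ∃ G, IsLocal H P G := hcrit.out 0 1
  have e3 : (∃ F : Filtration C, IsBB H F) ↔ ∀ P ∈ S, PowZero H P := hcrit.out 0 3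
  have e4 : (∃ F : Filtration C, IsBB H F) ↔ ∀ P ∈ S, LocNil H P := hcrit.out 0 4
  have e5 : (∃ F : Filtration C, IsBB H F) ↔
      ∀ P ∈ (Set.univ : Set 𝒱.Obj), Nil H P ∧ IdemZero H P := huniv.out 0 5
  tfae_have 1 → 2 := by
    intro h P hP
    obtain ⟨G, hG⟩ := e1.1 h P hP
    refine ⟨G, hG.anti, hG.zero, hG.one, fun i x hx => hG.top i x (hx _), hG.shift⟩
  tfae_have 2 → 1 := by
    intro h
    apply e1.2
    intro P hP
    obtain ⟨G, hG⟩ := h P hP
    exact ⟨G, hG.isLocal (hB P hP)⟩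
  tfae_have 1 → 4 := fun h P hP => (e4.1 h P hP).below
  have hall : (∀ P ∈ S, LocNilBelow H P) → ∀ X, LocNilBelow H X := by
    intro h X
    obtain ⟨P, hP, hd⟩ := hS X
    exact (h P hP).dom hd
  tfae_have 4 → 5 := by
    intro h P _ i _ ε hε x hx hcl
    exact hall h P i ε hε x hx hcl
  tfae_have 5 → 4 := by
    intro h X _
    obtain ⟨P, hP, n, hn, hXn, hd⟩ := hS' X
    exact (h P hP).dom hn hXn hd
  tfae_have 4 → 6 := fun h P _ => ⟨(hall h _).nil, (hall h P).idem⟩
  tfae_have 6 → 1 := by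
    intro h
    have h1 : ∀ X, Nil H X ∧ IdemZeroBelow H X := by
      intro X
      obtain ⟨P, hP, hd⟩ := hS X
      exact ⟨(h P hP).1.dom hd, (h P hP).2.dom hd⟩
    apply e3.2
    intro P hP
    obtain ⟨π, hπ⟩ := exists_CK hK (h1 P).1
    have hT := tri_of_below (h1 (P.prod P)).2 hπ
    exact hT.powZero hπ ⟨fun i m x hx hm => act_pi_zero_of_lef (hB P hP) (h1 P).1 hπ hm hx,
      fun i m x hx hm => hT.high hπ hx hm, fun i x hx hcl => hT.two hπ hx hcl⟩
  tfae_have 1 → 3 := by
    intro h P _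
    have h1 : ∀ X, Nil H X ∧ IdemZero H X := fun X => e5.1 h X trivial
    obtain ⟨π, hπ⟩ := exists_CK hK (h1 P).1
    exact (tri_of_below (h1 (P.prod P)).2.below hπ).prodZero hπ
  tfae_have 3 → 1 := by
    intro h
    apply e3.2
    intro P hP
    exact (h P hP).powZero hK (hB P hP)
  tfae_finish

end Pool.Agent.Run7.h570.BBN
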