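import Pool.Agent.Run7.h570.BBN.Global

set_option autoImplicit false
set_option linter.unusedSectionVars false

/-!
# Compositions of self-correspondences of a single variety
-/

open CategoryTheory AlgebraicGeometry

universe u v w

namespace Pool.Agent.Run7.h570.BBN

open Pool.Agent.H914 Pool.Agent.H914.VarClass Pool.Agent.H914.VarClass.Obj Pool.Agent.W492.BB
  Pool.Agent.W550.Corr Pool.Agent.TH133

variable {k : Type u} [Field k] {𝒱 : VarClass k} {C : TheoryData.{u, v, 0} 𝒱 ℚ}
  [hC : IsChowProj C] {K : Type w} [Field K]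
  {H : WeilTheoryData.{u, v, w} C K} [hH : IsWeilProj H] {X Y Z W P : 𝒱.Obj}

include hC hH

/-- Compositions for a local filtration. -/
lemma IsLocal.chainZero {G : ℕ → ℕ → Submodule ℚ (C.A P)} (hG : IsLocal H P G) :
    ChainZero H P := by
  intro i γ hγ x hx
  have h1 : ∀ n, n ≤ i + 1 → chain γ i n x ∈ G i n := by
    intro n
    induction n with
    | zero => exact fun _ => (hG.zero i x).2 hx
    | succ n ih =>
      intro hn
      obtain ⟨h1, h2⟩ := hγ (2 * i - n) (by omega) (by omega)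
      have e1 : (((2 * i - n : ℕ) : ℤ)) = 2 * (i : ℤ) - n := by omega
      rw [e1] at h2
      exact hG.shift i n _ h1 h2 _ (ih (by omega))
  exact hG.top i _ (h1 (i + 1) le_rfl)

/-- Transfer to dominated varieties. -/
lemma ChainZero.dom (hP : ChainZero H P) (h : Dominates C P X) : ChainZero H X := by
  obtain ⟨f, c, hc, h1⟩ := h
  have h1' : C.push f c = 1 := h1
  intro i γ hγ x hx
  have hex : ∀ m, ∃ Γ : C.A (P.prod P), (i ≤ m → m ≤ 2 * i → C.Deg P.dim Γ ∧ Kills H Γ m ∧
      ∀ x, C.act Γ x = C.pull f (C.act (γ m) (C.push f (c * x)))) := by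
    intro m
    by_cases hm : i ≤ m ∧ m ≤ 2 * i
    · obtain ⟨Γ, hΓ, hact, hk, -⟩ := exists_lift (H := H) f hc (hγ m hm.1 hm.2).1
      exact ⟨Γ, fun _ _ => ⟨hΓ, hk m (hγ m hm.1 hm.2).2, hact⟩⟩
    · exact ⟨0, fun h2 h3 => absurd ⟨h2, h3⟩ hm⟩
  choose Γ hΓ using hex
  have h2 := hP i Γ (fun m h2 h3 => ⟨(hΓ m h2 h3).1, (hΓ m h2 h3).2.1⟩) (C.pull f x)
    (C.pull_mem f hx)
  have h3 : ∀ n, n ≤ i + 1 → chain Γ i n (C.pull f x) = C.pull f (chain γ i n x) := by
    intro n
    induction n with
    | zero => exact fun _ => rfl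
    | succ n ih =>
      intro hn
      change C.act (Γ (2 * i - n)) (chain Γ i n (C.pull f x)) =
        C.pull f (C.act (γ (2 * i - n)) (chain γ i n x))
      rw [ih (by omega), (hΓ (2 * i - n) (by omega) (by omega)).2.2, push_pull_dom h1']
  rw [h3 _ le_rfl] at h2
  rw [← push_pull_dom h1' (chain γ i (i + 1) x), h2, mul_zero, map_zero]

/-- Homologically trivial self-correspondences are nilpotent. -/
lemma ChainZero.nil (h : ChainZero H (X.prod X)) : Nil H X := by
  intro γ hγ hcl
  have hd : tens C (dg C X) γ ∈ C.gr ((X.prod X).prod (X.prod X)) ((X.prod X).dim : ℤ) := by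
    have := tens_mem C (dg_mem C X) hγ
    rw [dim_prod]
    push_cast
    exact this
  have hz : H.cl (tens C (dg C X) γ) = 0 := by
    rw [cl_tens, hcl, tens, map_zero, mul_zero]
  have hk : ∀ m, Kills H (tens C (dg C X) γ) m := by
    intro m a _
    rw [hz]
    exact H.act_zero a
  have h1 := h X.dim (fun _ => tens C (dg C X) γ) (fun m _ _ => ⟨hd, hk m⟩) (dg C X)
    (dg_mem C X)
  have h2 : ∀ (g : Cor C X) (n : ℕ), chain (fun _ => tens C (dg C X) g) X.dim n (dg C X) =
      (g ^ n : Cor C X) := by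
    intro g n
    induction n with
    | zero =>
      rw [pow_zero]
      rfl
    | succ n ih =>
      change C.act (tens C (dg C X) g) (chain (fun _ => tens C (dg C X) g) X.dim n (dg C X)) = _
      rw [ih, act_tens C (ch_comm C), tp_dg]
      have h2 : C.comp (X := X) (Y := X) (Z := X) (dg C X) (g ^ n : Cor C X) =
          (g ^ n : Cor C X) := dg_comp C (X := X) (Y := X) _
      rw [h2]
      exact (pow_succ' g n).symm
  refine ⟨X.dim + 1, ?_⟩
  exact (comp_iter (C := C) (X := X) γ (X.dim + 1)).trans ((h2 γ _).symm.trans h1)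

lemma chain_iter {i : ℕ} {γ : ℕ → C.A (X.prod X)} {ε : C.A (X.prod X)} {x : C.A X}
    (h : ∀ m, i ≤ m → m < 2 * i → γ m = ε) (n : ℕ) (hn : n ≤ i) :
    chain γ i (n + 1) x = (C.act ε)^[n] (C.act (γ (2 * i)) x) := by
  induction n with
  | zero => rfl
  | succ n ih =>
    change C.act (γ (2 * i - (n + 1))) (chain γ i (n + 1) x) = _
    rw [ih (by omega), h _ (by omega) (by omega), Function.iterate_succ_apply']

lemma iter_idem {e : C.A (X.prod X)} (he : C.comp e e = e) (n : ℕ) (x : C.A X) :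
    (C.act e)^[n] (C.act e x) = C.act e x := by
  induction n with
  | zero => rfl
  | succ n ih => rw [Function.iterate_succ_apply', ih, ← C.act_comp, he]

/-- The conjecture (D) from the vanishing of compositions. -/
lemma ChainZero.act_two (h : ChainZero H X) {π : ℕ → C.A (X.prod X)} (hπ : IsCK H X π) {i : ℕ}
    {x : C.A X} (hx : x ∈ C.gr X i) (hcl : H.cl x = 0) : C.act (π (2 * i)) x = 0 := by
  by_cases hid : i ≤ X.dim
  · obtain ⟨u, hu, v, hv, huv⟩ := exists_dual_pair (C := C) (H := H) X hid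
    have hE : C.ext v x ∈ C.gr (X.prod X) X.dim := by
      have := ext_mem (H := H) hv hx
      rwa [sub_add_cancel] at this
    have hEcl : H.cl (C.ext v x) = 0 := by
      rw [TheoryData.ext, map_mul, H.cl_pull, H.cl_pull, hcl, map_zero, mul_zero]
    have hwm : C.act (π (2 * i)) u ∈ C.gr X i := act_mem0 C (hπ.deg _) hu
    have hEw : C.act (C.ext v x) (C.act (π (2 * i)) u) = x := by
      rw [act_ext (H := H)]
      have h2 : C.push (snd X X) (C.pull (fst X X) (v * C.act (π (2 * i)) u)) = 1 := by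
        rw [← huv]
        apply deg_eq_of_cl (H := H)
        · have := C.mul_mem hv hwm
          rwa [sub_add_cancel] at this
        · have := C.mul_mem hv hu
          rwa [sub_add_cancel] at this
        · rw [map_mul, map_mul, cl_act H]
          congr 1
          have h3 := H.cl_mem hu
          exact hπ.act_self (2 * i) _ (by exact_mod_cast h3)
      rw [h2, one_mul]
    let γ : ℕ → C.A (X.prod X) := fun m =>
      if m = 2 * i then C.comp (C.ext v x) (π (2 * i)) else π (2 * i)
    have h1 := h i γ ?_ (C.act (π (2 * i)) u) hwm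
    · rw [chain_iter (ε := π (2 * i)) (H := H) (fun m _ hm => if_neg (by omega)) i le_rfl] at h1
      rw [if_pos rfl, C.act_comp, hEw, iter_idem (H := H) (hπ.idem _)] at h1
      exact h1
    · intro m h2 h3
      by_cases hm : m = 2 * i
      · have e1 : γ m = C.comp (C.ext v x) (π (2 * i)) := if_pos hm
        rw [e1]
        refine ⟨comp_mem0 C hE (hπ.deg _), fun a _ => ?_⟩
        rw [actH_comp, hEcl, TheoryData.act_zero]
        exact map_zero (H.actL _)
      · have e1 : γ m = π (2 * i) := if_neg hm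
        rw [e1]
        exact ⟨hπ.deg _, fun a ha => hπ.act_ne _ _ a (by omega) ha⟩
  · have h1 : x = 0 := hC.gr_top X i x hx (by omega)
    rw [h1, TheoryData.act_map_zero]

lemma ChainZero.idem (h : ChainZero H X) (hπ : ∃ π, IsCK H X π) : IdemZero H X := by
  obtain ⟨π, hπ⟩ := hπ
  intro i ε hid hε x hx hcl
  have h0 := h.act_two hπ hx hcl
  let γ : ℕ → C.A (X.prod X) := fun m => if m = 2 * i then dg C X - π (2 * i) else ε
  have h1 := h i γ ?_ x hx
  · rw [chain_iter (ε := ε) (H := H) (fun m _ hm => if_neg (by omega)) i le_rfl] at h1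
    rw [if_pos rfl, TheoryData.act_sub, act_dg, h0, sub_zero] at h1
    rw [← iter_idem (H := H) hid i x, ← Function.iterate_succ_apply, Function.iterate_succ_apply',
      h1, TheoryData.act_map_zero]
  · intro m h2 h3
    by_cases hm : m = 2 * i
    · have e1 : γ m = dg C X - π (2 * i) := if_pos hm
      rw [e1]
      refine ⟨Submodule.sub_mem _ (dg_mem C X) (hπ.deg _), fun a ha => ?_⟩
      have h4 : H.act (H.cl (π (2 * i))) a = a := hπ.act_self _ a (by rw [← hm]; exact ha)
      rw [map_sub, TheoryData.act_sub, actH_dg, h4, sub_self]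
    · have e1 : γ m = ε := if_neg hm
      rw [e1]
      exact ⟨hε.1, hε.2 m (by omega) (by omega)⟩

/-- **The criterion.** -/
theorem criterion (hK : KunnethConjecture H) (S : Set 𝒱.Obj)
    (hS : ∀ X : 𝒱.Obj, ∃ P ∈ S, Dominates C P X) :
    [∃ F : Filtration C, IsBB H F,
      ∀ P ∈ S, ∃ G, IsLocal H P G,
      ∀ P ∈ S, ChainZero H P,
      ∀ P ∈ S, PowZero H P,
      ∀ P ∈ S, LocNil H P,
      ∀ P ∈ S, Nil H P ∧ IdemZero H P].TFAE ∧
    ∀ F : Filtration C, IsBB H F → ∀ (X : 𝒱.Obj) (G : ℕ → ℕ → Submodule ℚ (C.A X)),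
      IsLocal H X G ↔ ∀ i n, G i n = F.F X i n := by
  obtain ⟨h1, h2⟩ := main hK S hS
  refine ⟨?_, h2⟩
  tfae_have 1 ↔ 2 := h1.out 0 1
  tfae_have 1 ↔ 4 := h1.out 0 2
  tfae_have 1 ↔ 5 := h1.out 0 3
  tfae_have 1 ↔ 6 := h1.out 0 4
  tfae_have 2 → 3 := by
    intro h P hP
    obtain ⟨G, hG⟩ := h P hP
    exact hG.chainZero
  tfae_have 3 → 6 := by
    intro h P _
    have h3 : ∀ X, ChainZero H X := by
      intro X
      obtain ⟨P, hP, hd⟩ := hS X
      exact (h P hP).dom hd
    exact ⟨(h3 _).nil, (h3 _).idem (exists_CK hK (h3 _).nil)⟩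
  tfae_finish

end Pool.Agent.Run7.h570.BBN
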