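import Pool.Agent.TH133.Murre

set_option autoImplicit false

/-!
# Bloch-Beilinson filtrations: definitions for the criteria with single self-correspondences
-/

open CategoryTheory AlgebraicGeometry

universe u v w

namespace Pool.Agent.Run7.h570.BBN

open Pool.Agent.H914 Pool.Agent.H914.VarClass Pool.Agent.H914.VarClass.Obj Pool.Agent.W492.BB
  Pool.Agent.W550.Corr Pool.Agent.TH133

variable {k : Type u} [Field k] {𝒱 : VarClass k}

/-- `P` dominates `X`: there are a morphism `f : P ⟶ X` and a class `c` on `P` such that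
`f_* c = [X]`. For smooth projective varieties and Chow groups with rational coefficients this means
that `f` is surjective. -/
def Dominates (C : TheoryData.{u, v, 0} 𝒱 ℚ) (P X : 𝒱.Obj) : Prop :=
  ∃ (f : P ⟶ X) (c : C.A P), C.Deg (P.dim - X.dim) c ∧ C.down f c = 1

section Weil

variable {C : TheoryData.{u, v, 0} 𝒱 ℚ} {K : Type w} [Field K] (H : WeilTheoryData.{u, v, w} C K)

/-- Grothendieck's Künneth standard conjecture for the variety `X`. -/
def Kunneth (X : 𝒱.Obj) : Prop :=
  ∀ m : ℕ, ∃ π : C.A (X.prod X), C.Deg X.dim π ∧ ∀ (l : ℤ) (a : H.A X),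
    H.Deg l a → H.act (H.cl π) a = if l = m then a else 0

/-- `G i n` is the step `F^n CH^i(P)` of a filtration of the Chow groups of the single variety `P`,
which has the properties 1 and 2 of a Bloch-Beilinson filtration, and for which every
self-correspondence `ε` of degree zero of `P` acting as zero on `H^(2i-n)(P)` maps `F^n CH^i(P)` to
`F^(n+1) CH^i(P)`. Nothing is required about products, other varieties and other correspondences. -/
structure IsLocal (P : 𝒱.Obj) (G : ℕ → ℕ → Submodule ℚ (C.A P)) : Prop where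
  anti : ∀ i n, G i (n + 1) ≤ G i n
  zero : ∀ (i : ℕ) (x : C.A P), x ∈ G i 0 ↔ C.Deg i x
  one : ∀ (i : ℕ) (x : C.A P), x ∈ G i 1 ↔ C.Deg i x ∧ H.cl x = 0
  top : ∀ (i : ℕ) (x : C.A P), x ∈ G i (i + 1) → x = 0
  shift : ∀ (i n : ℕ) (ε : C.A (P.prod P)), C.Deg P.dim ε → Kills H ε (2 * i - n) →
    ∀ x ∈ G i n, C.act ε x ∈ G i (n + 1)

/-- `chain γ i n x = (γ (2i-n+1))_* ⋯ (γ (2i-1))_* (γ (2i))_* x`, a composition of `n`
self-correspondences. -/
noncomputable def chain {P : 𝒱.Obj} (γ : ℕ → C.A (P.prod P)) (i : ℕ) : ℕ → C.A P → C.A P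
  | 0, x => x
  | n + 1, x => C.act (γ (2 * i - n)) (chain γ i n x)

/-- `I_i ⋯ I_(2i-1) I_(2i) CH^i(P) = 0` for all `i`, where `I_m` is the ideal of the
self-correspondences of degree zero of `P` which act as zero on `H^m(P)`. -/
def ChainZero (P : 𝒱.Obj) : Prop :=
  ∀ (i : ℕ) (γ : ℕ → C.A (P.prod P)),
    (∀ m, i ≤ m → m ≤ 2 * i → C.Deg P.dim (γ m) ∧ Kills H (γ m) m) →
    ∀ x : C.A P, C.Deg i x → chain γ i (i + 1) x = 0

/-- The self-correspondence `ε` of degree zero of `P` is a phantom in codimension `i`: it acts as zero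
on `H^m(P)` for `i ≤ m < 2 i`. -/
def IsPhantom {P : 𝒱.Obj} (i : ℕ) (ε : C.A (P.prod P)) : Prop :=
  C.Deg P.dim ε ∧ ∀ m : ℤ, i ≤ m → m < 2 * i → Kills H ε m

/-- The single self-correspondences of `P` which are phantoms in codimension `i` are locally
nilpotent on the homologically trivial classes of codimension `i`. -/
def LocNil (P : 𝒱.Obj) : Prop :=
  ∀ (i : ℕ) (ε : C.A (P.prod P)), IsPhantom H i ε → ∀ x : C.A P, C.Deg i x → H.cl x = 0 →
    ∃ n : ℕ, (C.act ε)^[n] x = 0

/-- The `i`-th power of every self-correspondence of `P` which is a phantom in codimension `i` acts as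
zero on the homologically trivial classes of codimension `i`. -/
def PowZero (P : 𝒱.Obj) : Prop :=
  ∀ (i : ℕ) (ε : C.A (P.prod P)), IsPhantom H i ε → ∀ x : C.A P, C.Deg i x → H.cl x = 0 →
    (C.act ε)^[i] x = 0

/-- Each single homologically trivial self-correspondence of degree zero of `P` is nilpotent. -/
def Nil (P : 𝒱.Obj) : Prop :=
  ∀ γ : C.A (P.prod P), C.Deg P.dim γ → H.cl γ = 0 →
    ∃ n : ℕ, (fun Δ : C.A (P.prod P) => C.comp γ Δ)^[n] (dg C P) = 0

/-- The projectors which are phantoms in codimension `i` act as zero on the homologically trivial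
classes of codimension `i`. -/
def IdemZero (P : 𝒱.Obj) : Prop :=
  ∀ (i : ℕ) (ε : C.A (P.prod P)), C.comp ε ε = ε → IsPhantom H i ε → ∀ x : C.A P, C.Deg i x →
    H.cl x = 0 → C.act ε x = 0

end Weil

end Pool.Agent.Run7.h570.BBN
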