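import Pool.Agent.Run7.h570.BBN.Single

set_option autoImplicit false
set_option linter.unusedSectionVars false

/-!
# The filtration defined by the Chow-Künneth decompositions
-/

open CategoryTheory AlgebraicGeometry

universe u v w

namespace Pool.Agent.Run7.h570.BBN

open Pool.Agent.H914 Pool.Agent.H914.VarClass Pool.Agent.H914.VarClass.Obj Pool.Agent.W492.BB
  Pool.Agent.W550.Corr Pool.Agent.TH133

variable {k : Type u} [Field k] {𝒱 : VarClass k} {C : TheoryData.{u, v, 0} 𝒱 ℚ}
  [hC : IsChowProj C] {K : Type w} [Field K]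
  {H : WeilTheoryData.{u, v, w} C K} [hH : IsWeilProj H] {X Y Z W P : 𝒱.Obj}

include hC hH

/-- The projectors `π m`, `m < i` or `m > 2 i`, act as zero on `CH^i`, and `π (2 i)` acts as zero on
the homologically trivial classes. -/
lemma act_pi_zero (hX : IdemZero H X) {π : ℕ → C.A (X.prod X)} (hπ : IsCK H X π) {i m : ℕ}
    (hm : m < i ∨ 2 * i ≤ m) {x : C.A X} (hx : x ∈ C.gr X i) (hcl : m = 2 * i → H.cl x = 0) :
    C.act (π m) x = 0 := by
  have h1 : IsPhantom H i (π m) := by
    refine ⟨hπ.deg m, fun m' h2 h3 a ha => hπ.act_ne m m' a (by omega) ha⟩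
  have h2 : H.cl (C.act (π m) x) = 0 := by
    rw [cl_act H]
    by_cases h3 : m = 2 * i
    · rw [hcl h3]
      exact map_zero (H.actL (H.cl (π m)))
    · exact hπ.act_ne m (2 * i) _ (by omega) (H.cl_mem hx)
  have h3 := hX i (π m) (hπ.idem m) h1 (C.act (π m) x) (act_mem0 C (hπ.deg m) hx) h2
  rw [← C.act_comp, hπ.idem] at h3
  exact h3

lemma murreB0 (hX : IdemZero H X) : MurreB0 H X := by
  rw [murreB0_iff]
  intro π hπ i j x hx hj
  exact act_pi_zero hX hπ (Or.inr (by omega)) hx (by omega)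

/-- Self-correspondences acting as zero on `H^a(X)` act as zero on the `a`-th component. -/
lemma comp_zero_of_kills (hX : IdemZero H (X.prod X)) {π : ℕ → C.A (X.prod X)}
    (hπ : IsCK H X π) {a : ℕ} {γ : C.A (X.prod X)} (hγ : γ ∈ C.gr (X.prod X) X.dim)
    (hk : Kills H γ a) : C.comp (C.comp (π a) γ) (π a) = 0 := by
  by_cases ha : a ≤ 2 * X.dim
  · have h0 : ∀ x : H.A X, H.act (H.cl (C.comp (C.comp (π a) γ) (π a))) x = 0 := by
      have h1 : H.actL (H.cl (C.comp (C.comp (π a) γ) (π a))) = 0 := by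
        apply ext_gr H
        intro m x hx
        rw [TheoryData.actL_apply, actH_comp, actH_comp, hπ.actH_eq a m hx, LinearMap.zero_apply]
        split_ifs with h2
        · subst h2
          have h3 : H.act (H.cl γ) x = 0 := hk x hx
          rw [h3]
          exact map_zero (H.actL _)
        · have h3 : H.act (H.cl γ) 0 = 0 := map_zero (H.actL _)
          rw [h3]
          exact map_zero (H.actL _)
      intro x
      exact LinearMap.congr_fun h1 x
    have h1 : H.cl (C.comp (C.comp (π a) γ) (π a)) = 0 := hom_zero_of_act H h0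
    have h2 : C.comp (C.comp (π a) γ) (π a) ∈ C.gr (X.prod X) X.dim :=
      comp_mem0 C (comp_mem0 C (hπ.deg a) hγ) (hπ.deg a)
    have h3 : C.act (prodCK C (dualCK C π) π (2 * X.dim - a + a))
        (C.comp (C.comp (π a) γ) (π a)) = 0 := by
      apply act_pi_zero hX (hπ.dual.prod hπ) (i := X.dim) (Or.inr (by omega)) h2
      intro _
      exact h1
    have h4 := comp_zero_of_prod hπ hπ ha h3
    rw [comp_assoc, comp_assoc, comp_assoc, hπ.idem, ← comp_assoc, ← comp_assoc, hπ.idem] at h4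
    exact h4
  · rw [hπ.out a (by omega), zero_comp, zero_comp]

/-- The filtration defined by chosen Chow-Künneth decompositions. -/
noncomputable def fil (π : ∀ X : 𝒱.Obj, ℕ → C.A (X.prod X)) (hπ : ∀ X, IsCK H X (π X)) :
    Filtration C where
  F X i n := ckFil C (π X) i n
  le_gr X i n := by
    intro x hx
    rw [(hπ X).mem_ckFil] at hx
    exact hx.1
  anti X i n := by
    intro x hx
    rw [(hπ X).mem_ckFil] at hx ⊢
    exact ⟨hx.1, fun j hj => hx.2 j (by omega)⟩

variable {π : ∀ X : 𝒱.Obj, ℕ → C.A (X.prod X)} {hπ : ∀ X, IsCK H X (π X)}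

lemma mem_fil {i n : ℕ} {x : C.A X} : (fil π hπ).Mem i n x ↔
    x ∈ C.gr X i ∧ ∀ j, 2 * i + 1 - n ≤ j → C.act (π X j) x = 0 := (hπ X).mem_ckFil i n x

lemma sum_act (hP : IsCK H X (π X)) (x : C.A X) :
    x = ∑ j ∈ Finset.range (2 * X.dim + 1), C.act (π X j) x := by
  rw [← act_sum, hP.sum, act_dg]

lemma fil_bounded (hX : ∀ X : 𝒱.Obj, IdemZero H X) : IsBounded H (fil π hπ) where
  zero X i x := by
    rw [mem_fil]
    exact ⟨fun h => h.1, fun h => ⟨h, fun j hj => act_pi_zero (hX X) (hπ X) (Or.inr (by omega)) h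
      (by omega)⟩⟩
  one X i x := by
    rw [mem_fil]
    refine ⟨fun h => ⟨h.1, ?_⟩, fun h => ⟨h.1, fun j hj => act_pi_zero (hX X) (hπ X)
      (Or.inr (by omega)) h.1 (fun _ => h.2)⟩⟩
    have h1 := h.2 (2 * i) (by omega)
    have h2 : H.cl (C.act (π X (2 * i)) x) = H.cl x := by
      rw [cl_act H]
      exact (hπ X).act_self (2 * i) _ (by exact_mod_cast H.cl_mem h.1)
    rw [← h2, h1, map_zero]
  top X i x h := by
    rw [mem_fil] at h
    rw [sum_act (hπ X) x]
    apply Finset.sum_eq_zero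
    intro j _
    by_cases hj : j < i
    · exact act_pi_zero (hX X) (hπ X) (Or.inl hj) h.1 (by omega)
    · exact h.2 j (by omega)

/-- Correspondences respect the filtration. -/
lemma fil_corr (hX : ∀ X : 𝒱.Obj, IdemZero H X) {i j n : ℕ} {γ : C.A (X.prod Y)} {c : ℕ}
    (hγ : γ ∈ C.gr (X.prod Y) c) (hc : c + i = X.dim + j) {x : C.A X}
    (hx : (fil π hπ).Mem i n x) : (fil π hπ).Mem j n (C.act γ x) := by
  rw [mem_fil] at hx ⊢
  constructor
  · have h1 : γ ∈ C.gr (X.prod Y) (X.dim + ((j : ℤ) - i)) := by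
      have e1 : (X.dim : ℤ) + ((j : ℤ) - i) = c := by omega
      rw [e1]
      exact hγ
    have h2 := act_mem' C h1 hx.1
    rwa [add_sub_cancel] at h2
  · intro b hb
    rw [sum_act (hπ X) x, act_map_sum, act_map_sum]
    apply Finset.sum_eq_zero
    intro a _
    by_cases ha : 2 * i + 1 - n ≤ a
    · rw [hx.2 a ha, TheoryData.act_map_zero, TheoryData.act_map_zero]
    · have h2 := comp_zero_of_B0 (murreB0 (hX (X.prod Y))) (hπ X) (hπ Y) (i := c) (j := a)
        (b := b) hγ (by omega)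
      rw [← C.act_comp, ← C.act_comp, ← comp_assoc, h2, TheoryData.act_zero]

lemma fil_mul (hX : ∀ X : 𝒱.Obj, IdemZero H X) {i j m n : ℕ} {x y : C.A X}
    (hx : (fil π hπ).Mem i m x) (hy : (fil π hπ).Mem j n y) :
    (fil π hπ).Mem (i + j) (m + n) (C.mul x y) := by
  have h1 : (fil π hπ).Mem (i + j) (m + n) (C.ext x y) := by
    have h2 := murreC_of_B0 (X.prod X) (murreB0 (hX ((X.prod X).prod (X.prod X))))
      (π (X.prod X)) (prodCK C (π X) (π X)) (hπ (X.prod X)) ((hπ X).prod (hπ X)) (i + j) (m + n)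
    change C.ext x y ∈ ckFil C (π (X.prod X)) (i + j) (m + n)
    rw [h2, ((hπ X).prod (hπ X)).mem_ckFil]
    rw [mem_fil] at hx hy
    constructor
    · have := ext_mem (H := H) hx.1 hy.1
      exact_mod_cast this
    · intro l hl
      unfold prodCK
      rw [act_sum]
      apply Finset.sum_eq_zero
      intro a ha
      rw [Finset.mem_range] at ha
      rw [act_tens_ext C _ _ (fun f c => ch_comm C _ _)]
      by_cases h3 : 2 * i + 1 - m ≤ a
      · rw [hx.2 a h3, TheoryData.ext_zero_left]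
      · rw [hy.2 (l - a) (by omega), TheoryData.ext_zero_right]
  have h2 : C.mul x y = C.act (C.cograph (Obj.lift (𝟙 X) (𝟙 X))) (C.ext x y) := by
    rw [C.act_cograph, TheoryData.ext, map_mul, ← C.pull_comp, ← C.pull_comp, lift_fst, lift_snd,
      C.pull_id, C.pull_id]
  rw [h2]
  refine fil_corr hX (c := (X.prod X).dim) ?_ rfl h1
  have h := C.push_mem (Obj.lift (Obj.lift (𝟙 X) (𝟙 X)) (𝟙 X)) (C.one_mem X)
  have e1 : (0 : ℤ) + 1 * ((((X.prod X).prod X).dim : ℤ) - (X.dim : ℤ)) = (X.prod X).dim := by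
    rw [dim_prod]; push_cast; ring
  rwa [e1] at h

lemma fil_pull (hX : ∀ X : 𝒱.Obj, IdemZero H X) (f : X ⟶ Y) {i n : ℕ} {y : C.A Y}
    (hy : (fil π hπ).Mem i n y) : (fil π hπ).Mem i n (C.up f y) := by
  have h2 : C.up f y = C.act (C.cograph f) y := (C.act_cograph f y).symm
  rw [h2]
  refine fil_corr hX (c := Y.dim) ?_ rfl hy
  have h := C.push_mem (Obj.lift f (𝟙 X)) (C.one_mem X)
  have e1 : (0 : ℤ) + 1 * (((Y.prod X).dim : ℤ) - (X.dim : ℤ)) = Y.dim := by
    rw [dim_prod]; push_cast; ring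
  rwa [e1] at h

lemma fil_push (hX : ∀ X : 𝒱.Obj, IdemZero H X) (f : X ⟶ Y) {i j n : ℕ} {x : C.A X}
    (hij : i + Y.dim = j + X.dim)
    (hx : (fil π hπ).Mem i n x) : (fil π hπ).Mem j n (C.down f x) := by
  have h2 : C.down f x = C.act (C.graph f) x := (C.act_graph f x).symm
  rw [h2]
  refine fil_corr hX (c := Y.dim) ?_ (by omega) hx
  have h := C.push_mem (Obj.lift (𝟙 X) f) (C.one_mem X)
  have e1 : (0 : ℤ) + 1 * (((X.prod Y).dim : ℤ) - (X.dim : ℤ)) = Y.dim := by
    rw [dim_prod]; push_cast; ring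
  rwa [e1] at h

lemma fil_motivic (hX : ∀ X : 𝒱.Obj, IdemZero H X) {i n : ℕ} {γ : C.A (X.prod X)}
    (hγ : C.Deg X.dim γ) (hk : Kills H γ (2 * i - n)) {x : C.A X} (hx : (fil π hπ).Mem i n x) :
    (fil π hπ).Mem i (n + 1) (C.act γ x) := by
  have h0 := fil_corr hX (γ := γ) (c := X.dim) (j := i) (hγ : γ ∈ C.gr (X.prod X) X.dim) rfl hx
  rw [mem_fil] at hx h0 ⊢
  refine ⟨h0.1, fun b hb => ?_⟩
  rw [sum_act (hπ X) x, act_map_sum, act_map_sum]
  apply Finset.sum_eq_zero
  intro a _
  by_cases ha : 2 * i + 1 - n ≤ a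
  · rw [hx.2 a ha, TheoryData.act_map_zero, TheoryData.act_map_zero]
  · rw [← C.act_comp, ← C.act_comp, ← comp_assoc]
    by_cases hab : a < b
    · rw [comp_zero_of_B0 (murreB0 (hX (X.prod X))) (hπ X) (hπ X) (i := X.dim) (j := a)
        (b := b) hγ (by omega), TheoryData.act_zero]
    · have e1 : (2 * (i : ℤ) - n) = a := by omega
      have e2 : b = a := by omega
      subst e2
      rw [e1] at hk
      rw [comp_zero_of_kills (hX _) (hπ X) hγ hk, TheoryData.act_zero]

/-- The Bloch-Beilinson filtration. -/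
lemma fil_BB (hX : ∀ X : 𝒱.Obj, IdemZero H X) : IsBB H (fil π hπ) where
  bounded := fil_bounded hX
  multiplicative := ⟨fil_mul hX, fil_pull hX, fil_push hX⟩
  motivic := fun _ _ _ _ _ hγ hk _ hx => fil_motivic hX hγ hk hx

/-- Uniqueness of local filtrations. -/
lemma IsLocal.eq_ckFil {G : ℕ → ℕ → Submodule ℚ (C.A X)} (hG : IsLocal H X G)
    {π : ℕ → C.A (X.prod X)} (hπ : IsCK H X π) (i n : ℕ) : G i n = ckFil C π i n := by
  have hle : ∀ n, ∀ x ∈ G i n, x ∈ C.gr X i := by
    intro n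
    induction n with
    | zero => exact fun x hx => (hG.zero i x).1 hx
    | succ n ih => exact fun x hx => ih x (hG.anti i n hx)
  have hanti : ∀ a b, a ≤ b → G i b ≤ G i a := fun a b hab =>
    antitone_nat_of_succ_le (f := fun n => G i n) (fun n => hG.anti i n) hab
  ext x
  rw [hπ.mem_ckFil]
  constructor
  · intro hx
    refine ⟨hle n x hx, fun j hj => ?_⟩
    have h1 : ∀ m, C.act (π j) x ∈ G i (n + m + 1) := by
      intro m
      induction m with
      | zero =>
        exact hG.shift i n (π j) (hπ.deg j)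
          (fun a ha => hπ.act_ne j _ a (by omega) ha) x hx
      | succ m ih =>
        have h2 := hG.shift i (n + m + 1) (π j) (hπ.deg j)
          (fun a ha => hπ.act_ne j _ a (by push_cast; omega) ha) _ ih
        rw [← C.act_comp, hπ.idem] at h2
        exact h2
    exact hG.top i _ (hanti (i + 1) (n + i + 1) (by omega) (h1 i))
  · rintro ⟨hx, hx'⟩
    have h2 : x = ∑ j ∈ Finset.range (2 * X.dim + 1), C.act (π j) x := by
      rw [← act_sum, hπ.sum, act_dg]
    rw [h2]
    apply Submodule.sum_mem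
    intro j _
    by_cases hj : 2 * i + 1 - n ≤ j
    · rw [hx' j hj]
      exact Submodule.zero_mem _
    · have h3 : ∀ m, m ≤ 2 * i - j → C.act (π j) x ∈ G i m := by
        intro m
        induction m with
        | zero => exact fun _ => (hG.zero i _).2 (act_mem0 C (hπ.deg j) hx)
        | succ m ih =>
          intro hm
          have h4 := hG.shift i m (π j) (hπ.deg j)
            (fun a ha => hπ.act_ne j _ a (by omega) ha) _ (ih (by omega))
          rw [← C.act_comp, hπ.idem] at h4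
          exact h4
      exact h3 n (by omega)

/-- Phantoms are nilpotent for a local filtration. -/
lemma IsLocal.powZero {G : ℕ → ℕ → Submodule ℚ (C.A P)} (hG : IsLocal H P G) : PowZero H P := by
  intro i ε hε x hx hcl
  have h1 : ∀ j, j ≤ i → (C.act ε)^[j] x ∈ G i (j + 1) := by
    intro j
    induction j with
    | zero => exact fun _ => (hG.one i x).2 ⟨hx, hcl⟩
    | succ j ih =>
      intro hj
      rw [Function.iterate_succ_apply']
      exact hG.shift i (j + 1) ε hε.1 (hε.2 _ (by push_cast; omega) (by push_cast; omega)) _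
        (ih (by omega))
  exact hG.top i _ (h1 i le_rfl)

/-- **The criterion.** -/
theorem main (hK : KunnethConjecture H) (S : Set 𝒱.Obj)
    (hS : ∀ X : 𝒱.Obj, ∃ P ∈ S, Dominates C P X) :
    [∃ F : Filtration C, IsBB H F,
      ∀ P ∈ S, ∃ G, IsLocal H P G,
      ∀ P ∈ S, PowZero H P,
      ∀ P ∈ S, LocNil H P,
      ∀ P ∈ S, Nil H P ∧ IdemZero H P].TFAE ∧
    ∀ F : Filtration C, IsBB H F → ∀ (X : 𝒱.Obj) (G : ℕ → ℕ → Submodule ℚ (C.A X)),
      IsLocal H X G ↔ ∀ i n, G i n = F.F X i n := by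
  have h12 : ∀ F : Filtration C, IsBB H F → ∀ P, IsLocal H P (F.F P) := by
    intro F hF P
    exact ⟨F.anti P, fun i x => hF.bounded.zero P i x, fun i x => hF.bounded.one P i x,
      fun i x hx => hF.bounded.top P i x hx,
      fun i n ε hε hk x hx => hF.motivic hK P i n ε hε hk x hx⟩
  have h45 : (∀ P ∈ S, LocNil H P) → ∀ X, Nil H X ∧ IdemZero H X := by
    intro h
    have h1 : ∀ X, LocNil H X := by
      intro X
      obtain ⟨P, hP, hd⟩ := hS X
      exact (h P hP).dom hd
    exact fun X => ⟨nil_of_locNil (h1 _), (h1 X).idem⟩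
  have h51 : (∀ P ∈ S, Nil H P ∧ IdemZero H P) → ∃ F : Filtration C, IsBB H F := by
    intro h
    have h1 : ∀ X, Nil H X ∧ IdemZero H X := by
      intro X
      obtain ⟨P, hP, hd⟩ := hS X
      exact ⟨(h P hP).1.dom hd, (h P hP).2.dom hd⟩
    choose π hπ using fun X => exists_CK hK (h1 X).1
    exact ⟨fil π hπ, fil_BB (fun X => (h1 X).2)⟩
  have h34 : ∀ P, PowZero H P → LocNil H P :=
    fun P h i ε hε x hx hcl => ⟨i, h i ε hε x hx hcl⟩
  refine ⟨?_, ?_⟩
  · tfae_have 1 → 2 := by
      rintro ⟨F, hF⟩ P _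
      exact ⟨F.F P, h12 F hF P⟩
    tfae_have 2 → 3 := by
      intro h P hP
      obtain ⟨G, hG⟩ := h P hP
      exact hG.powZero
    tfae_have 3 → 4 := fun h P hP => h34 P (h P hP)
    tfae_have 4 → 5 := fun h P _ => h45 h P
    tfae_have 5 → 1 := h51
    tfae_finish
  · intro F hF X G
    constructor
    · intro hG i n
      have h1 : ∀ P, LocNil H P := fun P => h34 P (h12 F hF P).powZero
      obtain ⟨π, hπ⟩ := exists_CK hK (nil_of_locNil (h1 (X.prod X)))
      rw [hG.eq_ckFil hπ, (h12 F hF X).eq_ckFil hπ]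
    · intro h
      have h1 : G = F.F X := by
        funext i n
        exact h i n
      rw [h1]
      exact h12 F hF X

end Pool.Agent.Run7.h570.BBN
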