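import Pool.Agent.Run7.h570.BBN.LefDefs
import Pool.Agent.Run7.h570.BBN.Chain

set_option autoImplicit false
set_option linter.unusedSectionVars false

/-!
# Bloch-Beilinson filtrations under the Lefschetz standard conjecture
-/

open CategoryTheory AlgebraicGeometry

universe u v w

namespace Pool.Agent.Run7.h570.BBN

open Pool.Agent.H914 Pool.Agent.H914.VarClass Pool.Agent.H914.VarClass.Obj Pool.Agent.W492.BB
  Pool.Agent.W550.Corr Pool.Agent.TH133

variable {k : Type u} [Field k] {𝒱 : VarClass k} {C : TheoryData.{u, v, 0} 𝒱 ℚ}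
  [hC : IsChowProj C] {K : Type w} [Field K]
  {H : WeilTheoryData.{u, v, w} C K} [hH : IsWeilProj H] {X Y Z W P : 𝒱.Obj}

include hC

lemma pow_mem_gr {h : C.A X} (hh : C.Deg 1 h) (n : ℕ) : h ^ n ∈ C.gr X (n : ℤ) := by
  induction n with
  | zero =>
    rw [pow_zero]
    exact C.one_mem X
  | succ n ih =>
    rw [pow_succ]
    have := C.mul_mem ih (hh : h ∈ C.gr X 1)
    exact_mod_cast this

include hH

/-- The correspondence `Λ D^(d-m)`. -/
lemma exists_T (hB : LefschetzB H X) {m : ℕ} (hm : m < X.dim) : ∃ T : C.A (X.prod X),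
    C.Deg X.dim T ∧ (∀ a : H.A X, a ∈ H.gr X m → H.act (H.cl T) a = a) ∧
    ∀ (i : ℕ) (x : C.A X), x ∈ C.gr X i → m < i → C.act T x = 0 := by
  obtain ⟨D, hD, h⟩ := hB
  obtain ⟨Λ, hΛ, hΛ'⟩ := h m hm
  have hDm := pow_mem_gr (C := C) hD (X.dim - m)
  refine ⟨C.comp (C.mulCorr (D ^ (X.dim - m))) Λ, ?_, ?_, ?_⟩
  · have h1 : C.mulCorr (D ^ (X.dim - m)) ∈ C.gr (X.prod X) (X.dim + (X.dim - m : ℤ)) := by
      have h := C.push_mem (Obj.lift (𝟙 X) (𝟙 X)) hDm
      have e1 : ((X.dim - m : ℕ) : ℤ) + 1 * (((X.prod X).dim : ℤ) - (X.dim : ℤ)) =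
          X.dim + (X.dim - m : ℤ) := by
        rw [dim_prod]; push_cast; omega
      rwa [e1] at h
    have h2 : Λ ∈ C.gr (X.prod X) (X.dim + (m - X.dim : ℤ)) := by
      have e1 : (X.dim : ℤ) + (m - X.dim : ℤ) = m := by ring
      rw [e1]
      exact hΛ
    have := comp_mem C h1 h2
    have e1 : (X.dim : ℤ) + ((X.dim - m : ℤ) + (m - X.dim : ℤ)) = X.dim := by ring
    rwa [e1] at this
  · intro a ha
    rw [actH_comp]
    have h1 : H.act (H.cl (C.mulCorr (D ^ (X.dim - m)))) a = H.cl (D ^ (X.dim - m)) * a := by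
      have : H.cl (C.mulCorr (D ^ (X.dim - m))) = H.mulCorr (H.cl (D ^ (X.dim - m))) := by
        rw [TheoryData.mulCorr, TheoryData.mulCorr, H.cl_push]
      rw [this, H.act_mulCorr]
    rw [h1]
    exact hΛ' a ha
  · intro i x hx hi
    rw [C.act_comp, C.act_mulCorr]
    have h1 := C.mul_mem hDm hx
    have h2 : D ^ (X.dim - m) * x = 0 := hC.gr_top X _ _ h1 (by omega)
    rw [h2, TheoryData.act_map_zero]

/-- The first half of the vanishing in (B): `π_m` is zero on `CH^i`, `m < i`. -/
lemma act_pi_zero_of_lef (hB : LefschetzB H X) (hnil : Nil H X) {π : ℕ → C.A (X.prod X)}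
    (hπ : IsCK H X π) {i m : ℕ} (hm : m < i) {x : C.A X} (hx : x ∈ C.gr X i) :
    C.act (π m) x = 0 := by
  by_cases hd : m < X.dim
  · obtain ⟨T, hT, hT1, hT2⟩ := exists_T hB hd
    rw [nil_iff] at hnil
    let p : Cor C X := π m
    let t : Cor C X := T
    have hp : p ∈ cor0 C X := hπ.deg m
    have ht : t ∈ cor0 C X := hT
    let n : Cor C X := p * (1 - t) * p
    have hn : n ∈ cor0 C X := (cor0 C X).mul_mem ((cor0 C X).mul_mem hp
      ((cor0 C X).sub_mem (cor0 C X).one_mem ht)) hp
    have hpact : ∀ (m' : ℤ) (a : H.A X), a ∈ H.gr X m' →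
        actH C X H p a = if m' = m then a else 0 := fun m' a ha => hπ.actH_eq m m' ha
    have htact : ∀ a : H.A X, a ∈ H.gr X m → actH C X H t a = a := hT1
    have hnact : ∀ a : H.A X, actH C X H n a = 0 := by
      have h0 : actH C X H n = 0 := by
        apply ext_gr H
        intro m' a ha
        simp only [n]
        rw [LinearMap.zero_apply, map_mul, map_mul, Module.End.mul_apply, Module.End.mul_apply,
          hpact m' a ha]
        split_ifs with h1
        · subst h1
          rw [map_sub, map_one, LinearMap.sub_apply, htact a ha, Module.End.one_apply, sub_self,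
            map_zero]
        · rw [map_zero, map_zero]
      intro a
      rw [h0, LinearMap.zero_apply]
    have hncl : H.cl (X := X.prod X) n = 0 := hom_zero_of_act H (X := X) (Y := X) hnact
    obtain ⟨N, hN⟩ := hnil n hn hncl
    have hact : ∀ (a b : Cor C X) (z : C.A X), actC C X (a * b) z = actC C X a (actC C X b z) :=
      fun a b z => by rw [map_mul]; rfl
    have hpp : ∀ z, actC C X p (actC C X p z) = actC C X p z := by
      intro z
      change C.act (π m) (C.act (π m) z) = C.act (π m) z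
      rw [← C.act_comp, hπ.idem]
    have hfix : ∀ N : ℕ, actC C X (n ^ N) (actC C X p x) = actC C X p x := by
      intro N
      induction N with
      | zero => rw [pow_zero, map_one, Module.End.one_apply]
      | succ N ih =>
        have h1 : actC C X n (actC C X p x) = actC C X p x := by
          simp only [n]
          rw [hact, hact, hpp, map_sub, map_one, LinearMap.sub_apply, Module.End.one_apply]
          have h2 : actC C X t (actC C X p x) = 0 :=
            hT2 i _ (act_mem0 C (hπ.deg m) hx) hm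
          rw [h2, sub_zero, hpp]
        rw [pow_succ, hact, h1, ih]
    have h1 := hfix N
    rw [hN, map_zero, LinearMap.zero_apply] at h1
    exact h1.symm
  · have h1 : x = 0 := hC.gr_top X i x hx (by omega)
    rw [h1, TheoryData.act_map_zero]

/-- A separated local filtration is a local filtration. -/
lemma IsLocalSep.isLocal (hB : LefschetzB H P) {G : ℕ → ℕ → Submodule ℚ (C.A P)}
    (hG : IsLocalSep H P G) : IsLocal H P G := by
  refine ⟨hG.anti, hG.zero, hG.one, ?_, hG.shift⟩
  intro i x hx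
  have hle : ∀ n, ∀ x ∈ G i n, x ∈ C.gr P i := by
    intro n
    induction n with
    | zero => exact fun x hx => (hG.zero i x).1 hx
    | succ n ih => exact fun x hx => ih x (hG.anti i n hx)
  have hanti : ∀ a b, a ≤ b → G i b ≤ G i a := fun a b hab =>
    antitone_nat_of_succ_le (f := fun n => G i n) (fun n => hG.anti i n) hab
  have hxd := hle _ x hx
  have key : ∀ n, x ∈ G i (i + 1 + n) := by
    intro n
    induction n with
    | zero => exact hx
    | succ n ih =>
      by_cases h1 : 2 * i < i + 1 + n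
      · have h2 := hG.shift i (i + 1 + n) (dg C P) (dg_mem C P) (fun a ha => by
          have h3 : H.gr P (2 * (i : ℤ) - ((i + 1 + n : ℕ) : ℤ)) = ⊥ := H.gr_neg P _ (by
            push_cast; omega)
          have ha' : a ∈ H.gr P (2 * (i : ℤ) - ((i + 1 + n : ℕ) : ℤ)) := ha
          rw [h3] at ha'
          rw [(Submodule.mem_bot _).1 ha']
          exact map_zero (H.actL _)) x ih
        rw [act_dg] at h2
        exact h2
      · obtain ⟨m, hm⟩ : ∃ m : ℕ, 2 * (i : ℤ) - ((i + 1 + n : ℕ) : ℤ) = m :=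
          ⟨2 * i - (i + 1 + n), by push_cast; omega⟩
        by_cases hd : m < P.dim
        · obtain ⟨T, hT, hT1, hT2⟩ := exists_T hB hd
          have h2 := hG.shift i (i + 1 + n) (dg C P - T)
            (Submodule.sub_mem _ (dg_mem C P) hT) (fun a ha => by
              rw [hm] at ha
              rw [map_sub, TheoryData.act_sub, actH_dg, hT1 a ha, sub_self]) x ih
          rw [TheoryData.act_sub, act_dg, hT2 i x hxd (by omega), sub_zero] at h2
          exact h2
        · have h1 : x = 0 := hC.gr_top P i x hxd (by omega)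
          rw [h1]
          exact Submodule.zero_mem _
  apply hG.sep i x
  intro n
  exact hanti n (i + 1 + n) (by omega) (key n)

omit hH in
/-- The operations `x ↦ c' f^* x` and `f_* (c'' ·)`. -/
lemma exists_lift2 (f : P ⟶ X) {r' r'' : ℤ} {c' c'' : C.A P} (hc' : C.Deg r' c')
    (hc'' : C.Deg r'' c'') (hr : r' + r'' = P.dim - X.dim) {ε : C.A (X.prod X)}
    (hε : C.Deg X.dim ε) : ∃ Γ : C.A (P.prod P), C.Deg P.dim Γ ∧
      (∀ x, C.act Γ x = c' * C.pull f (C.act ε (C.push f (c'' * x)))) ∧
      Γ = C.comp (C.comp (C.comp (C.comp (C.mulCorr c'') (C.graph f)) ε) (C.cograph f))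
        (C.mulCorr c') := by
  refine ⟨_, ?_, ?_, rfl⟩
  · have h1 : C.mulCorr c'' ∈ C.gr (P.prod P) (P.dim + r'') := by
      have h := C.push_mem (Obj.lift (𝟙 P) (𝟙 P)) hc''
      have e1 : r'' + 1 * (((P.prod P).dim : ℤ) - (P.dim : ℤ)) = P.dim + r'' := by
        rw [dim_prod]; push_cast; ring
      rwa [e1] at h
    have h1' : C.mulCorr c' ∈ C.gr (P.prod P) (P.dim + r') := by
      have h := C.push_mem (Obj.lift (𝟙 P) (𝟙 P)) hc'
      have e1 : r' + 1 * (((P.prod P).dim : ℤ) - (P.dim : ℤ)) = P.dim + r' := by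
        rw [dim_prod]; push_cast; ring
      rwa [e1] at h
    have h2 : C.graph f ∈ C.gr (P.prod X) (P.dim + (X.dim - P.dim)) := by
      have h := C.push_mem (Obj.lift (𝟙 P) f) (C.one_mem P)
      have e1 : (0 : ℤ) + 1 * (((P.prod X).dim : ℤ) - (P.dim : ℤ)) = P.dim + (X.dim - P.dim) := by
        rw [dim_prod]; push_cast; ring
      rwa [e1] at h
    have h3 : C.cograph f ∈ C.gr (X.prod P) (X.dim + 0) := by
      have h := C.push_mem (Obj.lift f (𝟙 P)) (C.one_mem P)
      have e1 : (0 : ℤ) + 1 * (((X.prod P).dim : ℤ) - (P.dim : ℤ)) = X.dim + 0 := by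
        rw [dim_prod]; push_cast; ring
      rwa [e1] at h
    have h4 : ε ∈ C.gr (X.prod X) (X.dim + 0) := by
      rw [add_zero]; exact hε
    have := comp_mem C (comp_mem C (comp_mem C (comp_mem C h1 h2) h4) h3) h1'
    have e1 : (P.dim : ℤ) + (r'' + (X.dim - P.dim) + 0 + 0 + r') = P.dim := by linarith
    rwa [e1] at this
  · intro x
    rw [C.act_comp, C.act_comp, C.act_comp, C.act_comp, C.act_mulCorr, C.act_graph,
      C.act_cograph, C.act_mulCorr]

/-- Transfer of the nilpotence in the middle codimension. -/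
lemma LocNilMid.dom (hP : LocNilMid H P) {n : ℕ} (hn : P.dim = 2 * n) (hXn : X.dim ≤ n)
    (h : PolDominates C P X) : LocNilBelow H X := by
  obtain ⟨f, h, q, hh, hq, h1⟩ := h
  intro i ε hε x hx hcl
  by_cases hi : i ≤ X.dim
  · have hc' : C.Deg ((n - i : ℕ) : ℤ) (h ^ (n - i)) := pow_mem_gr hh _
    have hc'' : C.Deg ((n + i - X.dim : ℕ) : ℤ) (q⁻¹ • h ^ (n + i - X.dim)) :=
      Submodule.smul_mem _ _ (pow_mem_gr hh _)
    obtain ⟨Γ, hΓ, hact, hΓe⟩ := exists_lift2 f hc' hc'' (by omega) hε.1
    have hinv : ∀ y, C.push f ((q⁻¹ • h ^ (n + i - X.dim)) * (h ^ (n - i) * C.pull f y)) = y := by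
      intro y
      rw [← mul_assoc, smul_mul_assoc, ← pow_add, smul_mul_assoc, map_smul, C.proj_right]
      have e1 : n + i - X.dim + (n - i) = P.dim - X.dim := by omega
      rw [e1]
      have h2 : C.push f (h ^ (P.dim - X.dim)) = q • (1 : C.A X) := h1
      rw [h2, smul_mul_assoc, one_mul, smul_smul, inv_mul_cancel₀ hq, one_smul]
    have hk : KillsBelow H n Γ := by
      refine ⟨hΓ, fun m hm a ha => ?_⟩
      rw [hΓe, cl_comp, cl_comp, cl_comp, cl_comp, H.act_comp, H.act_comp, H.act_comp, H.act_comp]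
      have h1 : ∀ c : C.A P, H.act (H.cl (C.mulCorr c)) a = H.cl c * a := by
        intro c
        have : H.cl (C.mulCorr c) = H.mulCorr (H.cl c) := by
          rw [TheoryData.mulCorr, TheoryData.mulCorr, H.cl_push]
        rw [this, H.act_mulCorr]
      have h2 : ∀ b, H.act (H.cl (C.graph f)) b = H.push f b := by
        intro b
        have : H.cl (C.graph f) = H.graph f := by
          rw [TheoryData.graph, TheoryData.graph, H.cl_push, map_one]
        rw [this, H.act_graph]
      rw [h1, h2]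
      have h3 : H.push f (H.cl (q⁻¹ • h ^ (n + i - X.dim)) * a) ∈ H.gr X (m + 2 * i - 2 * n) := by
        have h4 := H.push_mem f (H.mul_mem (H.cl_mem hc'') ha)
        have e1 : 2 * ((n + i - X.dim : ℕ) : ℤ) + m + 2 * ((X.dim : ℤ) - P.dim) =
            m + 2 * i - 2 * n := by omega
        rwa [e1] at h4
      have h5 : H.act (H.cl ε) (H.push f (H.cl (q⁻¹ • h ^ (n + i - X.dim)) * a)) = 0 :=
        hε.2 _ (by omega) _ h3
      rw [h5]
      have h6 : ∀ (Y Z : 𝒱.Obj) (c : H.A (Y.prod Z)), H.act c 0 = 0 :=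
        fun Y Z c => map_zero (H.actL c)
      rw [h6, h6]
    have hx' : C.Deg (n : ℤ) (h ^ (n - i) * C.pull f x) := by
      have h2 := C.mul_mem hc' (C.pull_mem f hx)
      have e1 : ((n - i : ℕ) : ℤ) + i = n := by omega
      rwa [e1] at h2
    obtain ⟨N, hN⟩ := hP n hn Γ hk (h ^ (n - i) * C.pull f x) hx'
      (by rw [map_mul, H.cl_pull, hcl, map_zero, mul_zero])
    refine ⟨N, ?_⟩
    have h2 : ∀ N, (C.act Γ)^[N] (h ^ (n - i) * C.pull f x) =
        h ^ (n - i) * C.pull f ((C.act ε)^[N] x) := by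
      intro N
      induction N with
      | zero => rfl
      | succ N ih =>
        rw [Function.iterate_succ_apply', ih, hact, hinv, Function.iterate_succ_apply']
    rw [h2] at hN
    rw [← hinv ((C.act ε)^[N] x), hN, mul_zero, map_zero]
  · have h1 : x = 0 := hC.gr_top X i x hx (by omega)
    exact ⟨0, h1⟩

end Pool.Agent.Run7.h570.BBN
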