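import Pool.Agent.Run7.h570.BBN.Defs

set_option autoImplicit false

/-!
# Bloch-Beilinson filtrations under the Lefschetz standard conjecture: definitions
-/

open CategoryTheory AlgebraicGeometry

universe u v w

namespace Pool.Agent.Run7.h570.BBN

open Pool.Agent.H914 Pool.Agent.H914.VarClass Pool.Agent.H914.VarClass.Obj Pool.Agent.W492.BB
  Pool.Agent.W550.Corr Pool.Agent.TH133

variable {k : Type u} [Field k] {𝒱 : VarClass k}

/-- `P` dominates `X` by a morphism `f` such that `f_* h^(dim P - dim X)` is a nonzero multiple of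
`[X]` for some divisor class `h` on `P`. For smooth projective varieties this means that `f` is
surjective (`h` ample). -/
def PolDominates (C : TheoryData.{u, v, 0} 𝒱 ℚ) (P X : 𝒱.Obj) : Prop :=
  ∃ (f : P ⟶ X) (h : C.A P) (q : ℚ), C.Deg 1 h ∧ q ≠ 0 ∧
    C.down f (h ^ (P.dim - X.dim)) = q • (1 : C.A X)

section Weil

variable {C : TheoryData.{u, v, 0} 𝒱 ℚ} {K : Type w} [Field K] (H : WeilTheoryData.{u, v, w} C K)

/-- The Lefschetz standard conjecture (type B) for `X`: for some divisor class `D` (for example an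
ample one) and all `m < d = dim X` some correspondence `Λ` of degree `m - d` is a left inverse of
`D^(d-m) : H^m(X) → H^(2d-m)(X)`. -/
def LefschetzB (X : 𝒱.Obj) : Prop :=
  ∃ D : C.A X, C.Deg 1 D ∧ ∀ m : ℕ, m < X.dim → ∃ Λ : C.A (X.prod X), C.Deg m Λ ∧
    ∀ a : H.A X, H.Deg m a → H.act (H.cl Λ) (H.mul (H.cl (D ^ (X.dim - m))) a) = a

/-- `G i n` is the step `F^n CH^i(P)` of a filtration of the Chow groups of the single variety `P`,
with `F^0 CH^i(P) = CH^i(P)` and `F^1 CH^i(P)` the homologically trivial classes, which is separated,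
and such that every self-correspondence `ε` of degree zero of `P` acting as zero on `H^(2i-n)(P)` maps
`F^n CH^i(P)` to `F^(n+1) CH^i(P)`. -/
structure IsLocalSep (P : 𝒱.Obj) (G : ℕ → ℕ → Submodule ℚ (C.A P)) : Prop where
  anti : ∀ i n, G i (n + 1) ≤ G i n
  zero : ∀ (i : ℕ) (x : C.A P), x ∈ G i 0 ↔ C.Deg i x
  one : ∀ (i : ℕ) (x : C.A P), x ∈ G i 1 ↔ C.Deg i x ∧ H.cl x = 0
  sep : ∀ (i : ℕ) (x : C.A P), (∀ n, x ∈ G i n) → x = 0
  shift : ∀ (i n : ℕ) (ε : C.A (P.prod P)), C.Deg P.dim ε → Kills H ε (2 * i - n) →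
    ∀ x ∈ G i n, C.act ε x ∈ G i (n + 1)

/-- The self-correspondence `ε` of degree zero of `P` acts as zero on `H^m(P)` for all
`m < 2 i`. -/
def KillsBelow {P : 𝒱.Obj} (i : ℕ) (ε : C.A (P.prod P)) : Prop :=
  C.Deg P.dim ε ∧ ∀ m : ℤ, m < 2 * i → Kills H ε m

/-- The single self-correspondences of degree zero of `P` which act as zero on `H^m(P)`, `m < 2 i`,
are locally nilpotent on the homologically trivial classes of codimension `i`. -/
def LocNilBelow (P : 𝒱.Obj) : Prop :=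
  ∀ (i : ℕ) (ε : C.A (P.prod P)), KillsBelow H i ε → ∀ x : C.A P, C.Deg i x → H.cl x = 0 →
    ∃ n : ℕ, (C.act ε)^[n] x = 0

/-- The same for the middle codimension only: `dim P = 2 i`. -/
def LocNilMid (P : 𝒱.Obj) : Prop :=
  ∀ (i : ℕ), P.dim = 2 * i → ∀ (ε : C.A (P.prod P)), KillsBelow H i ε → ∀ x : C.A P, C.Deg i x →
    H.cl x = 0 → ∃ n : ℕ, (C.act ε)^[n] x = 0

/-- The projectors which act as zero on `H^m(P)`, `m < 2 i`, act as zero on the homologically trivial
classes of codimension `i`. -/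
def IdemZeroBelow (P : 𝒱.Obj) : Prop :=
  ∀ (i : ℕ) (ε : C.A (P.prod P)), C.comp ε ε = ε → KillsBelow H i ε → ∀ x : C.A P, C.Deg i x →
    H.cl x = 0 → C.act ε x = 0

/-- `prodDown γ N n = γ (N-n+1) ∘ ⋯ ∘ γ (N-1) ∘ γ N` (`γ N` is applied first; `n` factors). -/
noncomputable def prodDown {P : 𝒱.Obj} (γ : ℕ → C.A (P.prod P)) (N : ℕ) : ℕ → C.A (P.prod P)
  | 0 => dg C P
  | n + 1 => C.comp (prodDown γ N n) (γ (N - n))

/-- `I_0 I_1 ⋯ I_(2d) = 0`, `d = dim P`, where `I_m` is the ideal of the self-correspondences of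
degree zero of `P` which act as zero on `H^m(P)`. -/
def ProdZero (P : 𝒱.Obj) : Prop :=
  ∀ γ : ℕ → C.A (P.prod P), (∀ m, m ≤ 2 * P.dim → C.Deg P.dim (γ m) ∧ Kills H (γ m) m) →
    prodDown γ (2 * P.dim) (2 * P.dim + 1) = 0

end Weil

end Pool.Agent.Run7.h570.BBN
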