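import Pool.Agent.Run7.h570.BBN.Defs
import Mathlib.RingTheory.Idempotents

set_option autoImplicit false
set_option linter.unusedSectionVars false

/-!
# Phantoms on a single variety, lifting of the Künneth projectors, transfer to dominated varieties
-/

open CategoryTheory AlgebraicGeometry

universe u v w

namespace Pool.Agent.Run7.h570.BBN

open Pool.Agent.H914 Pool.Agent.H914.VarClass Pool.Agent.H914.VarClass.Obj Pool.Agent.W492.BB
  Pool.Agent.W550.Corr Pool.Agent.TH133

variable {k : Type u} [Field k] {𝒱 : VarClass k} {C : TheoryData.{u, v, 0} 𝒱 ℚ}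
  [hC : IsChowProj C] {K : Type w} [Field K]
  {H : WeilTheoryData.{u, v, w} C K} [hH : IsWeilProj H] {X Y Z W P : 𝒱.Obj}

include hC

lemma act_iter (ε : Cor C X) (n : ℕ) (x : C.A X) :
    (C.act (X := X) (Y := X) ε)^[n] x = actC C X (ε ^ n) x := by
  rw [map_pow, Module.End.pow_apply]
  rfl

lemma comp_iter (γ : Cor C X) (n : ℕ) :
    (fun Δ : C.A (X.prod X) => C.comp (X := X) (Y := X) (Z := X) γ Δ)^[n] (dg C X) =
      (γ ^ n : Cor C X) := by
  induction n with
  | zero => rfl
  | succ n ih =>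
    rw [Function.iterate_succ_apply', ih]
    exact (pow_succ γ n).symm

include hH

lemma nil_iff : Nil H X ↔ ∀ γ : Cor C X, γ ∈ cor0 C X → H.cl (X := X.prod X) γ = 0 →
    IsNilpotent γ := by
  constructor
  · intro h γ h1 h2
    obtain ⟨n, hn⟩ := h γ h1 h2
    rw [comp_iter] at hn
    exact ⟨n, hn⟩
  · intro h γ h1 h2
    obtain ⟨n, hn⟩ := h γ h1 h2
    refine ⟨n, ?_⟩
    rw [comp_iter]
    exact hn

/-- Local nilpotence on `X × X` implies that homologically trivial self-correspondences of `X` are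
nilpotent. -/
lemma nil_of_locNil (h : LocNil H (X.prod X)) : Nil H X := by
  rw [nil_iff]
  intro γ hγ hcl
  have hd : tens C (dg C X) γ ∈ C.gr ((X.prod X).prod (X.prod X)) ((X.prod X).dim : ℤ) := by
    have := tens_mem C (dg_mem C X) hγ
    rw [dim_prod]
    push_cast
    exact this
  have hz : H.cl (tens C (dg C X) γ) = 0 := by
    rw [cl_tens, hcl, tens, map_zero, mul_zero]
  have hk : ∀ m, Kills H (tens C (dg C X) γ) m := by
    intro m a _
    rw [hz]
    exact H.act_zero a
  obtain ⟨n, hn⟩ := h X.dim (tens C (dg C X) γ) ⟨hd, fun m _ _ => hk m⟩ γ hγ hcl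
  refine ⟨n + 1, ?_⟩
  have h1 : ∀ n, (C.act (tens C (dg C X) γ))^[n] γ = (γ ^ (n + 1) : Cor C X) := by
    intro n
    induction n with
    | zero => rw [zero_add, pow_one]; rfl
    | succ n ih =>
      rw [Function.iterate_succ_apply', ih, act_tens C (ch_comm C), tp_dg]
      have h2 : C.comp (X := X) (Y := X) (Z := X) (dg C X) (γ ^ (n + 1) : Cor C X) =
          (γ ^ (n + 1) : Cor C X) := dg_comp C (X := X) (Y := X) (γ ^ (n + 1) : Cor C X)
      rw [h2]
      exact (pow_succ' γ (n + 1)).symm
  exact (h1 n).symm.trans hn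

/-- The operation `ε ↦ f^* ε f_* (c ·)`. -/
lemma exists_lift (f : P ⟶ X) {c : C.A P} (hc : C.Deg (P.dim - X.dim) c) {ε : C.A (X.prod X)}
    (hε : C.Deg X.dim ε) : ∃ Γ : C.A (P.prod P), C.Deg P.dim Γ ∧
      (∀ x, C.act Γ x = C.pull f (C.act ε (C.push f (c * x)))) ∧
      (∀ m, Kills H ε m → Kills H Γ m) ∧
      Γ = C.comp (C.comp (C.comp (C.mulCorr c) (C.graph f)) ε) (C.cograph f) := by
  refine ⟨_, ?_, ?_, ?_, rfl⟩
  · have h1 : C.mulCorr c ∈ C.gr (P.prod P) (P.dim + (P.dim - X.dim)) := by
      have h := C.push_mem (Obj.lift (𝟙 P) (𝟙 P)) hc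
      have e1 : ((P.dim : ℤ) - X.dim) + 1 * (((P.prod P).dim : ℤ) - (P.dim : ℤ)) =
          P.dim + (P.dim - X.dim) := by
        rw [dim_prod]; push_cast; ring
      rwa [e1] at h
    have h2 : C.graph f ∈ C.gr (P.prod X) (P.dim + (X.dim - P.dim)) := by
      have h := C.push_mem (Obj.lift (𝟙 P) f) (C.one_mem P)
      have e1 : (0 : ℤ) + 1 * (((P.prod X).dim : ℤ) - (P.dim : ℤ)) = P.dim + (X.dim - P.dim) := by
        rw [dim_prod]; push_cast; ring
      rwa [e1] at h
    have h3 : C.cograph f ∈ C.gr (X.prod P) (X.dim + 0) := by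
      have h := C.push_mem (Obj.lift f (𝟙 P)) (C.one_mem P)
      have e1 : (0 : ℤ) + 1 * (((X.prod P).dim : ℤ) - (P.dim : ℤ)) = X.dim + 0 := by
        rw [dim_prod]; push_cast; ring
      rwa [e1] at h
    have h4 : ε ∈ C.gr (X.prod X) (X.dim + 0) := by
      rw [add_zero]; exact hε
    have := comp_mem C (comp_mem C (comp_mem C h1 h2) h4) h3
    have e1 : (P.dim : ℤ) + ((P.dim : ℤ) - X.dim + (X.dim - P.dim) + 0 + 0) = P.dim := by ring
    rwa [e1] at this
  · intro x
    rw [C.act_comp, C.act_comp, C.act_comp, C.act_mulCorr, C.act_graph, C.act_cograph]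
  · intro m hm a ha
    rw [cl_comp, cl_comp, cl_comp, H.act_comp, H.act_comp, H.act_comp]
    have h1 : H.act (H.cl (C.mulCorr c)) a = H.cl c * a := by
      have : H.cl (C.mulCorr c) = H.mulCorr (H.cl c) := by
        rw [TheoryData.mulCorr, TheoryData.mulCorr, H.cl_push]
      rw [this, H.act_mulCorr]
    have h2 : ∀ b, H.act (H.cl (C.graph f)) b = H.push f b := by
      intro b
      have : H.cl (C.graph f) = H.graph f := by
        rw [TheoryData.graph, TheoryData.graph, H.cl_push, map_one]
      rw [this, H.act_graph]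
    rw [h1, h2]
    have h3 : H.push f (H.cl c * a) ∈ H.gr X m := by
      have h4 := H.push_mem f (H.mul_mem (H.cl_mem hc) ha)
      have e1 : 2 * ((P.dim : ℤ) - X.dim) + m + 2 * ((X.dim : ℤ) - P.dim) = m := by ring
      rwa [e1] at h4
    have h5 : H.act (H.cl ε) (H.push f (H.cl c * a)) = 0 := hm _ h3
    rw [h5]
    exact map_zero (H.actL (H.cl (C.cograph f)))

omit hH in
lemma push_pull_dom {f : P ⟶ X} {c : C.A P} (h1 : C.push f c = 1) (x : C.A X) :
    C.push f (c * C.pull f x) = x := by
  rw [C.proj_right, h1, one_mul]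

/-- Transfer of local nilpotence to dominated varieties. -/
lemma LocNil.dom (hP : LocNil H P) (h : Dominates C P X) : LocNil H X := by
  obtain ⟨f, c, hc, h1⟩ := h
  have h1' : C.push f c = 1 := h1
  intro i ε hε x hx hcl
  obtain ⟨Γ, hΓ, hact, hk, -⟩ := exists_lift (H := H) f hc hε.1
  obtain ⟨n, hn⟩ := hP i Γ ⟨hΓ, fun m h2 h3 => hk m (hε.2 m h2 h3)⟩ (C.pull f x)
    (C.pull_mem f hx) (by rw [H.cl_pull, hcl, map_zero])
  refine ⟨n, ?_⟩
  have h2 : ∀ n, (C.act Γ)^[n] (C.pull f x) = C.pull f ((C.act ε)^[n] x) := by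
    intro n
    induction n with
    | zero => rfl
    | succ n ih =>
      rw [Function.iterate_succ_apply', ih, hact, push_pull_dom h1', Function.iterate_succ_apply']
  rw [h2] at hn
  rw [← push_pull_dom h1' ((C.act ε)^[n] x), hn, mul_zero, map_zero]

omit hH in
/-- Composition with the correspondence of a multiplication. -/
lemma comp_mulCorr (Γ : C.A (X.prod P)) (c : C.A P) :
    C.comp Γ (C.mulCorr c) = C.pull (snd X P) c * Γ := by
  rw [comp_eq_extR, TheoryData.extR, TheoryData.mulCorr, C.base_snd, ← C.proj_right, ← C.push_comp,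
    ← C.pull_comp]
  have e1 : prodMap (𝟙 X) (Obj.lift (𝟙 P) (𝟙 P)) ≫ u12 X P P = 𝟙 _ := by
    apply prod_ext <;> simp [u12]
  have e2 : prodMap (𝟙 X) (Obj.lift (𝟙 P) (𝟙 P)) ≫ u13 X P P = 𝟙 _ := by
    apply prod_ext <;> simp [u13]
  rw [e1, e2, C.pull_id, C.push_id]

omit hH in
/-- `f_* (c · f^*) = id` as correspondences. -/
lemma comp_push_pull {f : P ⟶ X} {c : C.A P} (h1 : C.push f c = 1) :
    C.comp (C.comp (C.cograph f) (C.mulCorr c)) (C.graph f) = dg C X := by
  rw [comp_mulCorr, TheoryData.cograph, ← C.proj_left, mul_one, ← C.pull_comp, lift_snd, C.pull_id,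
    comp_eq_extR, extR_graph, ← C.push_comp]
  have e1 : Obj.lift f (𝟙 P) ≫ prodMap (𝟙 X) f = f ≫ Obj.lift (𝟙 X) (𝟙 X) := by
    apply prod_ext <;> simp
  rw [e1, C.push_comp, h1]
  rfl

omit hH in
/-- The map `ε ↦ f^* ε f_* (c ·)` is multiplicative. -/
lemma lift_comp {f : P ⟶ X} {c : C.A P} (h1 : C.push f c = 1) (ε δ : C.A (X.prod X)) :
    C.comp (C.comp (C.comp (C.comp (C.mulCorr c) (C.graph f)) ε) (C.cograph f))
      (C.comp (C.comp (C.comp (C.mulCorr c) (C.graph f)) δ) (C.cograph f)) =
      C.comp (C.comp (C.comp (C.mulCorr c) (C.graph f)) (C.comp ε δ)) (C.cograph f) := by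
  have h2 := comp_push_pull (C := C) h1
  have h3 : C.comp (C.cograph f) (C.comp (C.mulCorr c) (C.graph f)) = dg C X := by
    rw [← comp_assoc]
    exact h2
  generalize C.comp (C.mulCorr c) (C.graph f) = a at *
  generalize C.cograph f = b at *
  simp only [comp_assoc]
  rw [← comp_assoc C b a, h3, dg_comp]

/-- Transfer of nilpotence to dominated varieties. -/
lemma Nil.dom (hP : Nil H P) (h : Dominates C P X) : Nil H X := by
  obtain ⟨f, c, hc, h1⟩ := h
  have h1' : C.push f c = 1 := h1
  intro γ hγ hcl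
  obtain ⟨Γ, hΓ, -, -, hΓe⟩ := exists_lift (H := H) f hc hγ
  have hcl' : H.cl Γ = 0 := by
    rw [hΓe, cl_comp, cl_comp, hcl, comp_zero, zero_comp]
  obtain ⟨n, hn⟩ := hP Γ hΓ hcl'
  have h2 := comp_push_pull (C := C) h1'
  have h3 : C.comp (C.cograph f) (C.comp (C.mulCorr c) (C.graph f)) = dg C X := by
    rw [← comp_assoc]
    exact h2
  have key : ∀ n, C.comp (C.cograph f) (C.comp ((fun Δ : C.A (P.prod P) => C.comp Γ Δ)^[n] (dg C P))
      (C.comp (C.mulCorr c) (C.graph f))) = (fun Δ : C.A (X.prod X) => C.comp γ Δ)^[n] (dg C X) := by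
    intro n
    induction n with
    | zero =>
      change C.comp (C.cograph f) (C.comp (dg C P) (C.comp (C.mulCorr c) (C.graph f))) = dg C X
      rw [dg_comp, h3]
    | succ n ih =>
      rw [Function.iterate_succ_apply', Function.iterate_succ_apply', ← ih]
      generalize (fun Δ : C.A (P.prod P) => C.comp Γ Δ)^[n] (dg C P) = z at *
      subst hΓe
      generalize C.comp (C.mulCorr c) (C.graph f) = a at *
      generalize C.cograph f = b at *
      simp only [comp_assoc]
      rw [← comp_assoc C b a, h3, dg_comp]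
  refine ⟨n, ?_⟩
  rw [← key n, hn, zero_comp, comp_zero]

/-- Transfer of the vanishing of phantom projectors to dominated varieties. -/
lemma IdemZero.dom (hP : IdemZero H P) (h : Dominates C P X) : IdemZero H X := by
  obtain ⟨f, c, hc, h1⟩ := h
  have h1' : C.push f c = 1 := h1
  intro i ε hid hε x hx hcl
  obtain ⟨Γ, hΓ, hact, hk, hΓe⟩ := exists_lift (H := H) f hc hε.1
  have h2 := hP i Γ (by rw [hΓe, lift_comp (C := C) h1', hid])
    ⟨hΓ, fun m h2 h3 => hk m (hε.2 m h2 h3)⟩ (C.pull f x)
    (C.pull_mem f hx) (by rw [H.cl_pull, hcl, map_zero])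
  rw [hact, push_pull_dom h1'] at h2
  rw [← push_pull_dom h1' (C.act ε x), h2, mul_zero, map_zero]

/-- Local nilpotence implies the vanishing of phantom projectors. -/
lemma LocNil.idem (h : LocNil H X) : IdemZero H X := by
  intro i ε hid hε x hx hcl
  obtain ⟨n, hn⟩ := h i ε hε x hx hcl
  have h1 : ∀ n, (C.act ε)^[n] (C.act ε x) = C.act ε x := by
    intro n
    induction n with
    | zero => rfl
    | succ n ih => rw [Function.iterate_succ_apply', ih, ← C.act_comp, hid]
  rw [← h1 n, ← Function.iterate_succ_apply, Function.iterate_succ_apply', hn]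
  exact TheoryData.act_map_zero C ε

/-- Lifting of the Künneth projectors along a nil ideal. -/
lemma exists_CK (hK : KunnethConjecture H) (hnil : Nil H X) : ∃ π, IsCK H X π := by
  rw [nil_iff] at hnil
  choose p hp1 hp2 using hK X
  let f : cor0 C X →+* Module.End K (H.A X) := (actH C X H).comp ((cor0 C X).val : cor0 C X →+* _)
  have hf : ∀ x : cor0 C X, f x = actH C X H (x : Cor C X) := fun x => rfl
  let P : ℕ → cor0 C X := fun i => ⟨(p i : C.A (X.prod X)), hp1 i⟩
  have hP : ∀ (i : ℕ) (m : ℤ) (a : H.A X), a ∈ H.gr X m → f (P i) a = if m = i then a else 0 :=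
    fun i m a ha => hp2 i m a ha
  have hker : ∀ x ∈ RingHom.ker f, IsNilpotent x := by
    rintro ⟨x, hx⟩ hxf
    have h1 : H.cl (X := X.prod X) x = 0 := by
      apply hom_zero_of_act H (X := X) (Y := X)
      intro a
      exact LinearMap.congr_fun ((RingHom.mem_ker).1 hxf) a
    obtain ⟨n, hn⟩ := hnil x hx h1
    exact ⟨n, Subtype.ext hn⟩
  have he : CompleteOrthogonalIdempotents (fun i : Fin (2 * X.dim + 1) => f (P i)) := by
    refine ⟨⟨fun i => ?_, fun i j hij => ?_⟩, ?_⟩
    · change f (P i) * f (P i) = f (P i)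
      apply ext_gr H
      intro m a ha
      rw [Module.End.mul_apply, hP _ m a ha]
      split_ifs with h
      · rw [hP _ m a ha, if_pos h]
      · rw [map_zero]
    · change f (P i) * f (P j) = 0
      apply ext_gr H
      intro m a ha
      rw [Module.End.mul_apply, hP _ m a ha]
      split_ifs with h
      · rw [hP _ m a ha, if_neg]
        · rfl
        · intro h2
          apply hij
          apply Fin.ext
          omega
      · rw [map_zero]
        rfl
    · change ∑ i : Fin (2 * X.dim + 1), f (P i) = 1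
      apply ext_gr H
      intro m a ha
      have hs : ∑ i : Fin (2 * X.dim + 1), f (P i) a =
          ∑ i : Fin (2 * X.dim + 1), (if m = (i : ℕ) then a else 0) :=
        Finset.sum_congr rfl (fun i _ => hP i m a ha)
      rw [LinearMap.sum_apply, hs, Module.End.one_apply]
      by_cases ha0 : a = 0
      · subst ha0
        simp
      · have h1 := nonneg_of_mem H ha ha0
        obtain ⟨m, rfl⟩ := Int.eq_ofNat_of_zero_le h1
        have h2 : m < 2 * X.dim + 1 := by
          by_contra h3
          have h4 : H.gr X (m : ℤ) = ⊥ := gr_top H (by omega)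
          rw [h4] at ha
          exact ha0 ((Submodule.mem_bot _).1 ha)
        rw [Finset.sum_eq_single ⟨m, h2⟩]
        · simp
        · intro b _ hb
          rw [if_neg]
          intro h3
          apply hb
          apply Fin.ext
          simp only
          omega
        · intro h3
          exact absurd (Finset.mem_univ _) h3
  obtain ⟨e', he', hfe⟩ := CompleteOrthogonalIdempotents.lift_of_isNilpotent_ker f hker he
    (fun i => ⟨P i, rfl⟩)
  have hfe' : ∀ i : Fin (2 * X.dim + 1), f (e' i) = f (P i) := fun i => congr_fun hfe i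
  let Q : ℕ → Cor C X := fun i => if h : i < 2 * X.dim + 1 then (e' ⟨i, h⟩ : Cor C X) else 0
  have hQ : ∀ (i : ℕ) (h : i < 2 * X.dim + 1), Q i = (e' ⟨i, h⟩ : Cor C X) :=
    fun i h => dif_pos h
  have hQ' : ∀ (i : ℕ) (h : ¬ i < 2 * X.dim + 1), Q i = 0 := fun i h => dif_neg h
  refine ⟨Q, isCK_of ?_ ?_ ?_ ?_ ?_⟩
  · intro i
    by_cases h : i < 2 * X.dim + 1
    · rw [hQ i h]
      exact (e' ⟨i, h⟩).2
    · rw [hQ' i h]
      exact (cor0 C X).zero_mem
  · intro i hi
    exact hQ' i (by omega)
  · intro i j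
    by_cases h : i < 2 * X.dim + 1
    · by_cases h' : j < 2 * X.dim + 1
      · rw [hQ i h, hQ j h', ← (cor0 C X).coe_mul]
        by_cases hij : i = j
        · subst hij
          rw [if_pos rfl]
          exact congrArg _ (he'.idem ⟨i, h⟩)
        · rw [if_neg hij]
          have := he'.ortho (i := ⟨i, h⟩) (j := ⟨j, h'⟩) (by
            intro h2
            exact hij (congrArg Fin.val h2))
          exact congrArg Subtype.val this
      · rw [hQ' j h', mul_zero, if_neg]
        rintro rfl
        exact h' h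
    · rw [hQ' i h, zero_mul]
      split_ifs <;> rfl
  · rw [Finset.sum_range]
    have h1 : ∀ i : Fin (2 * X.dim + 1), Q i = (cor0 C X).val (e' i) := fun i => hQ i i.2
    rw [Finset.sum_congr rfl (fun i _ => h1 i), ← map_sum, he'.complete, map_one]
  · intro i m a ha
    by_cases h : i < 2 * X.dim + 1
    · rw [hQ i h]
      have h1 := hfe' ⟨i, h⟩
      rw [hf] at h1
      rw [h1]
      exact hP i m a ha
    · rw [hQ' i h, map_zero]
      split_ifs with h2
      · have h4 : H.gr X m = ⊥ := gr_top H (by omega)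
        rw [h4] at ha
        exact ((Submodule.mem_bot _).1 ha).symm
      · rfl

end Pool.Agent.Run7.h570.BBN
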